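import Pool.Agent.Q287.RS.Comb

/-! Random seed trees: estimates for rooted trees with small branches. -/

set_option linter.unusedSectionVars false

namespace Pool.Agent.Q287.RS

open Finset Pool.Agent.W151.TreeNum Pool.Agent.W151.TreeRec

attribute [local instance] Classical.propDecidable

variable {V : Type} [Fintype V]

lemma a_pos' {n : ℕ} (h : 1 ≤ n) : (0:ℝ) < a n := by exact_mod_cast a_pos h

lemma sb_sub {S : Finset V} {π : V → V} {x : V} : sb S π x ⊆ S := Finset.filter_subset _ _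

lemma sb_erase {S : Finset V} {r x : V} {π : V → V} (h : IsPar (⊤ : SimpleGraph V) S r π)
    (hxr : x ≠ r) : sb S π x ⊆ S.erase r := by
  intro v hv
  rw [mem_sb] at hv
  rw [mem_erase]
  refine ⟨?_, hv.1⟩
  rintro rfl
  obtain ⟨j, hj⟩ := hv.2
  rw [iter_fix h.root] at hj
  exact hxr hj.symm

lemma sb_disj {S : Finset V} {r x z : V} {π : V → V} (h : IsPar (⊤ : SimpleGraph V) S r π)
    (hxr : x ≠ r) (hzr : z ≠ r) (hx : π x = r) (hz : π z = r) (hxz : x ≠ z) :
    Disjoint (sb S π x) (sb S π z) := by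
  rw [Finset.disjoint_left]
  intro v h1 h2
  rw [mem_sb] at h1 h2
  obtain ⟨_, j, hj⟩ := h1
  obtain ⟨_, i, hi⟩ := h2
  exact hxz (unique_top h.root hxr hzr hx hz hj hi)

lemma nb_le {S : Finset V} {r : V} (hr : r ∈ S) (c : ℕ) : nb S r c ≤ a S.card := by
  rw [← card_Par hr]
  exact Finset.card_filter_le _ _

lemma nb_full {S : Finset V} {r : V} (hr : r ∈ S) {c : ℕ} (hc : S.card ≤ c) :
    nb S r c = a S.card := by
  rw [← card_Par hr]
  unfold nb
  rw [Finset.filter_true_of_mem]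
  intro π _ z _ _ _
  exact (Finset.card_le_card sb_sub).trans hc

/-- number of marked branches of size `M` -/
lemma card_Mk_full {S : Finset V} {r : V} (hr : r ∈ S) {M c : ℕ} (hc : S.card ≤ c) :
    ((Mk S r M c).card : ℝ) = q S.card M * a S.card := by
  have hb : 1 ≤ S.card := card_pos.2 ⟨r, hr⟩
  rw [card_Mk hr]
  have h1 : ∀ C ∈ powersetCard M (S.erase r), M * (a M * nb (S \ C) r c) =
      M * (a M * a (S.card - M)) := by
    intro C hC
    rw [mem_powersetCard] at hC
    have hrC : r ∉ C := fun h => by have := hC.1 h; simp at this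
    have hCS : C ⊆ S := hC.1.trans (erase_subset _ _)
    have e2 : (S \ C).card = S.card - M := by rw [card_sdiff_of_subset hCS, hC.2]
    rw [nb_full (mem_sdiff.2 ⟨hr, hrC⟩) (by omega), e2]
  rw [sum_congr rfl h1, sum_const, card_powersetCard, card_erase_of_mem hr, smul_eq_mul]
  unfold q
  have h2 := (a_pos' hb).ne'
  field_simp
  push_cast
  ring

lemma Mk_le {S : Finset V} {r : V} (hr : r ∈ S) {M c : ℕ} {p : ℝ}
    (hp : ∀ C ∈ powersetCard M (S.erase r), (nb (S \ C) r c : ℝ) ≤ p * a (S.card - M)) :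
    ((Mk S r M c).card : ℝ) ≤ p * (q S.card M * a S.card) := by
  have hb : 1 ≤ S.card := card_pos.2 ⟨r, hr⟩
  rw [card_Mk hr]
  push_cast
  have h1 : ∀ C ∈ powersetCard M (S.erase r), (M:ℝ) * ((a M:ℝ) * (nb (S \ C) r c : ℝ)) ≤
      M * (a M * (p * a (S.card - M))) := by
    intro C hC
    exact mul_le_mul_of_nonneg_left (mul_le_mul_of_nonneg_left (hp C hC) (Nat.cast_nonneg _))
      (Nat.cast_nonneg _)
  refine (sum_le_sum h1).trans (le_of_eq ?_)
  rw [sum_const, card_powersetCard, card_erase_of_mem hr, nsmul_eq_mul]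
  unfold q
  have h2 := (a_pos' hb).ne'
  field_simp

/-- trees with a large branch -/
lemma nb_add {S : Finset V} {r : V} (hr : r ∈ S) {c c' : ℕ} (hcc : c ≤ c')
    (hc' : S.card ≤ 2 * c' + 1) :
    nb S r c + ∑ M ∈ Ico (c' + 1) S.card, (Mk S r M S.card).card ≤ a S.card := by
  set U : Finset (V × (V → V)) := ((S.erase r) ×ˢ (Par (⊤ : SimpleGraph V) S r)).filter
    (fun p => p.2 p.1 = r ∧ c' < (sb S p.2 p.1).card) with hU
  have hmemU : ∀ p : V × (V → V), p ∈ U ↔ (p.1 ≠ r ∧ p.1 ∈ S) ∧ IsPar ⊤ S r p.2 ∧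
      p.2 p.1 = r ∧ c' < (sb S p.2 p.1).card := by
    intro p
    rw [hU, mem_filter, mem_product, mem_erase, mem_Par]
    tauto
  have h1 : U.card = ∑ M ∈ Ico (c' + 1) S.card, (Mk S r M S.card).card := by
    rw [card_eq_sum_card_fiberwise (f := fun p : V × (V → V) => (sb S p.2 p.1).card)
      (t := Ico (c' + 1) S.card)]
    · apply sum_congr rfl
      intro M hM
      rw [mem_Ico] at hM
      congr 1
      ext ⟨x, π⟩
      simp only [mem_filter, hmemU, Mk, mem_product, mem_erase, mem_Par]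
      constructor
      · rintro ⟨⟨⟨h1, h2⟩, h3, h4, _⟩, h6⟩
        refine ⟨⟨⟨h1, h2⟩, h3⟩, h4, h6, fun z _ _ _ _ => card_le_card sb_sub⟩
      · rintro ⟨⟨⟨h1, h2⟩, h3⟩, h4, h6, _⟩
        exact ⟨⟨⟨h1, h2⟩, h3, h4, by omega⟩, h6⟩
    · intro p hp
      rw [mem_coe, hmemU] at hp
      rw [mem_coe, mem_Ico]
      obtain ⟨⟨h1, _⟩, h3, h4, h5⟩ := hp
      have h6 := card_le_card (sb_erase h3 h1)
      rw [card_erase_of_mem hr] at h6
      have : 0 < S.card := card_pos.2 ⟨r, hr⟩
      simp only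
      omega
  have h2 : (U.image Prod.snd).card = U.card := by
    apply card_image_of_injOn
    rintro ⟨x, π⟩ hp ⟨z, π'⟩ hp' heq
    simp only at heq
    subst heq
    rw [mem_coe, hmemU] at hp hp'
    obtain ⟨⟨h1, _⟩, h3, h4, h5⟩ := hp
    obtain ⟨⟨h1', _⟩, _, h4', h5'⟩ := hp'
    simp only at h1 h3 h4 h5 h1' h4' h5'
    by_contra hne
    have hxz : x ≠ z := fun h => hne (by rw [h])
    have hd := sb_disj h3 h1 h1' h4 h4' hxz
    have h6 : (sb S π x ∪ sb S π z).card ≤ (S.erase r).card :=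
      card_le_card (union_subset (sb_erase h3 h1) (sb_erase h3 h1'))
    rw [card_union_of_disjoint hd, card_erase_of_mem hr] at h6
    omega
  have h3 : U.image Prod.snd ⊆ (Par (⊤ : SimpleGraph V) S r).filter (fun π => ¬ Small S r c π) := by
    intro π hπ
    rw [mem_image] at hπ
    obtain ⟨⟨x, π'⟩, hp, rfl⟩ := hπ
    rw [hmemU] at hp
    obtain ⟨⟨h1, h2⟩, h3, h4, h5⟩ := hp
    rw [mem_filter, mem_Par]
    refine ⟨h3, fun hs => ?_⟩
    have h6 : (sb S π' x).card ≤ c := hs x h2 h1 h4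
    have h7 : c' < (sb S π' x).card := h5
    omega
  have h4 := card_le_card h3
  rw [h2, h1] at h4
  have h5 := Finset.card_filter_add_card_filter_not (s := Par (⊤ : SimpleGraph V) S r)
    (fun π => Small S r c π)
  rw [card_Par hr] at h5
  have h6 : nb S r c = ((Par (⊤ : SimpleGraph V) S r).filter (fun π => Small S r c π)).card := rfl
  omega

/-- first upper bound -/
lemma nb_bound {S : Finset V} {r : V} (hr : r ∈ S) (hb2 : 2 ≤ S.card) {c c' : ℕ} (hcc : c ≤ c')
    (hc' : S.card ≤ 2 * c' + 1) (hc'b : c' < S.card) :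
    (nb S r c : ℝ) ≤ (1 / S.card + 1 / 2 * ∑ M ∈ Ico (S.card - c') (c' + 1), q S.card M) *
      a S.card := by
  set b := S.card with hb
  have hb1 : 1 ≤ b := by omega
  have h1 : (nb S r c : ℝ) + ∑ M ∈ Ico (c' + 1) b, q b M * a b ≤ a b := by
    have h2 := nb_add hr hcc hc'
    rw [← hb] at h2
    have h3 : ((nb S r c + ∑ M ∈ Ico (c' + 1) b, (Mk S r M b).card : ℕ) : ℝ) ≤ (a b : ℝ) := by
      exact_mod_cast h2
    push_cast at h3
    have h4 : ∀ M ∈ Ico (c' + 1) b, ((Mk S r M b).card : ℝ) = q b M * a b := by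
      intro M _
      exact card_Mk_full hr hb.symm.le
    rwa [sum_congr rfl h4] at h3
  rw [← Finset.sum_mul] at h1
  have h2 := sum_q hb2
  have h3 : ∑ M ∈ Ico 1 b, q b M = ∑ M ∈ Ico 1 (b - c'), q b M +
      ∑ M ∈ Ico (b - c') (c' + 1), q b M + ∑ M ∈ Ico (c' + 1) b, q b M := by
    rw [sum_Ico_consecutive _ (by omega) (by omega), sum_Ico_consecutive _ (by omega) (by omega)]
  have h4 : ∑ M ∈ Ico 1 (b - c'), q b M = ∑ M ∈ Ico (c' + 1) b, q b M := by
    apply Finset.sum_nbij' (fun M => b - M) (fun M => b - M)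
    · intro M hM; rw [Finset.mem_Ico] at *; omega
    · intro M hM; rw [Finset.mem_Ico] at *; omega
    · intro M hM; rw [Finset.mem_Ico] at hM; omega
    · intro M hM; rw [Finset.mem_Ico] at hM; omega
    · intro M hM
      rw [Finset.mem_Ico] at hM
      rw [q_symm (by omega) (by omega)]
  have hb0 : (0:ℝ) < b := by positivity
  have h5 : ((b - 1 : ℕ) : ℝ) = b - 1 := by rw [Nat.cast_sub hb1]; simp
  rw [h3, h4, h5] at h2
  have h6 : ∑ M ∈ Ico (c' + 1) b, q b M = 1 - 1 / b -
      1 / 2 * ∑ M ∈ Ico (b - c') (c' + 1), q b M := by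
    have h7 : 2 * ((b:ℝ) - 1) / b = 2 - 2 / b := by field_simp
    rw [h7] at h2
    have h8 : (2:ℝ) / b = 2 * (1 / b) := by ring
    linarith
  rw [h6] at h1
  linarith

lemma sqrt4 {b : ℝ} (hb : 1 ≤ b) : √(4 / b) * (4 / b) ≤ 8 / b := by
  have h1 : √(4 / b) ≤ 2 := by
    rw [Real.sqrt_le_left (by norm_num)]
    rw [div_le_iff₀ (by linarith)]
    linarith
  have h2 : 0 ≤ 4 / b := by positivity
  calc √(4 / b) * (4 / b) ≤ 2 * (4 / b) := mul_le_mul_of_nonneg_right h1 h2
    _ = 8 / b := by ring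

/-- all branches at most half -/
lemma nb_half {S : Finset V} {r : V} (hr : r ∈ S) {c : ℕ} (hc : 2 * c ≤ S.card) :
    (nb S r c : ℝ) ≤ 5 / S.card * a S.card := by
  set b := S.card with hb
  have hb1 : 1 ≤ b := card_pos.2 ⟨r, hr⟩
  have ha := a_pos' hb1
  rcases Nat.lt_or_ge b 2 with hb2 | hb2
  · have h1 : b = 1 := by omega
    have h2 : (nb S r c : ℝ) ≤ a b := by exact_mod_cast nb_le hr c
    rw [h1] at h2 ha ⊢
    norm_num
    linarith
  have h1 := nb_bound hr (by omega) (c := c) (c' := b / 2) (by omega) (by omega) (by omega)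
  refine h1.trans ?_
  rw [← hb]
  apply mul_le_mul_of_nonneg_right _ ha.le
  have hb0 : (0:ℝ) < b := by positivity
  have h2 : ∑ M ∈ Ico (b - b / 2) (b / 2 + 1), q b M ≤ 8 / b := by
    rcases Nat.even_or_odd b with he | ho
    · obtain ⟨m, hm⟩ := he
      have e1 : b / 2 = m := by omega
      have e2 : b - m = m := by omega
      rw [e1, e2, Nat.Ico_succ_singleton, sum_singleton]
      refine (q_le' (b := b) (M := m) (by omega) (by omega)).trans ?_
      have e3 : (2:ℝ) / ((b - m : ℕ) : ℝ) = 4 / b := by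
        rw [e2]
        have : (b:ℝ) = 2 * m := by rw [hm]; push_cast; ring
        rw [this]
        have hm0 : (m:ℝ) ≠ 0 := by
          have : 0 < m := by omega
          positivity
        field_simp
        norm_num
      rw [e3]
      exact sqrt4 (by exact_mod_cast hb1)
    · obtain ⟨m, hm⟩ := ho
      have e1 : b / 2 = m := by omega
      have e2 : b - m = m + 1 := by omega
      rw [e1, e2, Ico_self, sum_empty]
      exact div_nonneg (by norm_num) hb0.le
  have h3 : (5:ℝ) / b = 1 / b + 1 / 2 * (8 / b) := by ring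
  rw [h3]
  linarith

lemma tail_step {j : ℕ} (hj : 1 ≤ j) :
    √(2 / (j:ℝ)) * (2 / j) ≤ 17 * (1 / √j - 1 / √(j + 1)) := by
  have hj0 : (0:ℝ) < j := by positivity
  have hj1 : (1:ℝ) ≤ j := by exact_mod_cast hj
  set x := √(j:ℝ) with hx
  set y := √((j:ℝ) + 1) with hy
  have hx0 : 0 < x := by positivity
  have hy0 : 0 < y := by positivity
  have hx2 : x ^ 2 = j := Real.sq_sqrt hj0.le
  have hy2 : y ^ 2 = j + 1 := Real.sq_sqrt (by linarith)
  have hxy : x ≤ y := Real.sqrt_le_sqrt (by linarith)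
  have hyx : y ≤ √2 * x := by
    rw [hx, hy, ← Real.sqrt_mul (by norm_num)]
    exact Real.sqrt_le_sqrt (by linarith)
  have h2 : √(2:ℝ) ^ 2 = 2 := Real.sq_sqrt (by norm_num)
  have h20 : 0 < √(2:ℝ) := by positivity
  have h2le : √(2:ℝ) ≤ 1.4143 := by
    rw [Real.sqrt_le_left (by norm_num)]; norm_num
  have e1 : √(2 / (j:ℝ)) = √2 / x := by rw [hx, Real.sqrt_div (by norm_num)]
  rw [e1]
  have e2 : (2:ℝ) / j = 2 / x ^ 2 := by rw [hx2]
  rw [e2]
  have e3 : 1 / x - 1 / y = (y - x) / (x * y) := by field_simp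
  have e4 : y - x = 1 / (x + y) := by
    rw [eq_div_iff (by positivity)]
    nlinarith
  rw [e3, e4]
  have e5 : √2 / x * (2 / x ^ 2) = 2 * √2 / x ^ 3 := by ring
  have e6 : 17 * (1 / (x + y) / (x * y)) = 17 / ((x + y) * (x * y)) := by field_simp
  rw [e5, e6, div_le_div_iff₀ (by positivity) (by positivity)]
  -- 2√2 (x+y) x y ≤ 17 x^3 ;  y ≤ √2 x
  have h3 : (x + y) * (x * y) ≤ (x + √2 * x) * (x * (√2 * x)) := by
    apply mul_le_mul (by linarith) (mul_le_mul_of_nonneg_left hyx hx0.le) (by positivity)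
      (by positivity)
  have h4 : (x + √2 * x) * (x * (√2 * x)) = (√2 + 2) * x ^ 3 := by
    have : √2 * √2 = (2:ℝ) := by nlinarith
    calc (x + √2 * x) * (x * (√2 * x)) = (√2 + √2 * √2) * x ^ 3 := by ring
      _ = _ := by rw [this]
  calc 2 * √2 * ((x + y) * (x * y)) ≤ 2 * √2 * ((√2 + 2) * x ^ 3) := by
        rw [← h4]; exact mul_le_mul_of_nonneg_left h3 (by positivity)
    _ = (2 * √2 ^ 2 + 4 * √2) * x ^ 3 := by ring
    _ ≤ 17 * x ^ 3 := by
        apply mul_le_mul_of_nonneg_right _ (by positivity)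
        rw [h2]; linarith

lemma tail_sum {J : ℕ} (hJ : 1 ≤ J) : ∀ n, ∑ j ∈ Ico J (J + n), √(2 / (j:ℝ)) * (2 / j) ≤
    17 * (1 / √J - 1 / √((J + n : ℕ) : ℝ)) := by
  intro n
  induction n with
  | zero => simp only [Nat.add_zero, Ico_self, sum_empty, sub_self, mul_zero, le_refl]
  | succ n ih =>
    rw [show J + (n + 1) = (J + n) + 1 by ring, sum_Ico_succ_top (by omega)]
    have h1 := tail_step (j := J + n) (by omega)
    have h2 : (((J + n + 1 : ℕ)) : ℝ) = ((J + n : ℕ) : ℝ) + 1 := by push_cast; ring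
    rw [h2]
    linarith

lemma tail_le {J n : ℕ} (hJ : 1 ≤ J) : ∑ j ∈ Ico J n, √(2 / (j:ℝ)) * (2 / j) ≤ 17 / √J := by
  rcases le_total J n with h | h
  · obtain ⟨m, rfl⟩ := Nat.exists_eq_add_of_le h
    refine (tail_sum hJ m).trans ?_
    have h1 : (0:ℝ) ≤ 1 / √((J + m : ℕ) : ℝ) := by positivity
    have h2 : (17:ℝ) / √J = 17 * (1 / √J) := by ring
    rw [h2]; linarith
  · rw [Ico_eq_empty (by omega), sum_empty]
    positivity

/-- all branches at most `c`, where `c` is at least the half -/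
lemma nb_large {S : Finset V} {r : V} (hr : r ∈ S) {c : ℕ} (hc : S.card ≤ 2 * c)
    (hcb : c < S.card) :
    (nb S r c : ℝ) ≤ (1 / S.card + 17 / √((S.card - c : ℕ) : ℝ)) * a S.card := by
  set b := S.card with hb
  have hb1 : 1 ≤ b := by omega
  have ha := a_pos' hb1
  have hb2 : 2 ≤ b := by omega
  have h1 := nb_bound hr (by omega) (c := c) (c' := c) le_rfl (by omega) (by omega)
  refine h1.trans ?_
  rw [← hb]
  apply mul_le_mul_of_nonneg_right _ ha.le
  apply add_le_add le_rfl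
  -- split
  have h2 : ∑ M ∈ Ico (b - c) (c + 1), q b M ≤
      2 * ∑ M ∈ (Ico (b - c) (c + 1)).filter (fun M => b ≤ 2 * M), q b M := by
    rw [← Finset.sum_filter_add_sum_filter_not (Ico (b - c) (c + 1)) (fun M => b ≤ 2 * M)]
    have h3 : ∑ M ∈ (Ico (b - c) (c + 1)).filter (fun M => ¬ b ≤ 2 * M), q b M ≤
        ∑ M ∈ (Ico (b - c) (c + 1)).filter (fun M => b ≤ 2 * M), q b M := by
      have h4 : ∑ M ∈ (Ico (b - c) (c + 1)).filter (fun M => ¬ b ≤ 2 * M), q b M =
          ∑ M ∈ ((Ico (b - c) (c + 1)).filter (fun M => ¬ b ≤ 2 * M)).image (fun M => b - M),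
            q b M := by
        rw [sum_image]
        · apply sum_congr rfl
          intro M hM
          rw [mem_filter, mem_Ico] at hM
          rw [q_symm (by omega) (by omega)]
        · intro M hM M' hM' h
          rw [mem_coe, mem_filter, mem_Ico] at hM hM'
          simp only at h
          omega
      rw [h4]
      apply sum_le_sum_of_subset_of_nonneg
      · intro M hM
        rw [mem_image] at hM
        obtain ⟨M', hM', rfl⟩ := hM
        rw [mem_filter, mem_Ico] at hM' ⊢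
        omega
      · intro _ _ _; exact q_nonneg _ _
    linarith
  have h3 : ∑ M ∈ (Ico (b - c) (c + 1)).filter (fun M => b ≤ 2 * M), q b M ≤
      ∑ M ∈ (Ico (b - c) (c + 1)).filter (fun M => b ≤ 2 * M),
        √(2 / ((b - M : ℕ) : ℝ)) * (2 / ((b - M : ℕ) : ℝ)) := by
    apply sum_le_sum
    intro M hM
    rw [mem_filter, mem_Ico] at hM
    exact q_le' hM.2 (by omega)
  have h4 : ∑ M ∈ (Ico (b - c) (c + 1)).filter (fun M => b ≤ 2 * M),
        √(2 / ((b - M : ℕ) : ℝ)) * (2 / ((b - M : ℕ) : ℝ)) ≤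
      ∑ j ∈ Ico (b - c) (b + 1), √(2 / (j : ℝ)) * (2 / (j : ℝ)) := by
    have h5 : ∑ M ∈ (Ico (b - c) (c + 1)).filter (fun M => b ≤ 2 * M),
        √(2 / ((b - M : ℕ) : ℝ)) * (2 / ((b - M : ℕ) : ℝ)) =
        ∑ j ∈ ((Ico (b - c) (c + 1)).filter (fun M => b ≤ 2 * M)).image (fun M => b - M),
          √(2 / (j : ℝ)) * (2 / (j : ℝ)) := by
      rw [sum_image]
      intro M hM M' hM' h
      rw [mem_coe, mem_filter, mem_Ico] at hM hM'
      simp only at h
      omega
    rw [h5]
    apply sum_le_sum_of_subset_of_nonneg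
    · intro M hM
      rw [mem_image] at hM
      obtain ⟨M', hM', rfl⟩ := hM
      rw [mem_filter, mem_Ico] at hM'
      rw [mem_Ico]
      omega
    · intro _ _ _; positivity
  have h5 := tail_le (J := b - c) (n := b + 1) (by omega)
  linarith

/-- small branches -/
lemma nb_small {S : Finset V} {r : V} (hr : r ∈ S) {c : ℕ} (hc : 3 * c ≤ S.card)
    (hb2 : 2 ≤ S.card) :
    (nb S r c : ℝ) ≤ 30 * c / (S.card : ℝ) ^ 2 * a S.card := by
  set b := S.card with hb
  have hb1 : 1 ≤ b := by omega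
  have ha := a_pos' hb1
  have hb0 : (0:ℝ) < b := by positivity
  -- counting of marked branches
  have h1 : (b - 1) * nb S r c ≤ ∑ M ∈ Ico 1 (c + 1), M * (Mk S r M c).card := by
    have e1 : ∀ π ∈ (Par (⊤ : SimpleGraph V) S r).filter (Small S r c), b - 1 ≤
        ∑ x ∈ (S.erase r).filter (fun x => π x = r), (sb S π x).card := by
      intro π hπ
      rw [mem_filter, mem_Par] at hπ
      obtain ⟨hp, _⟩ := hπ
      rw [← card_erase_of_mem hr]
      refine le_trans (card_le_card ?_) card_biUnion_le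
      intro v hv
      rw [mem_erase] at hv
      rw [mem_biUnion]
      obtain ⟨k, hk⟩ := hp.2.2 v hv.2
      have hex : ∃ k, π^[k] v = r := ⟨k, hk⟩
      set m := Nat.find hex with hm
      have hm1 : π^[m] v = r := Nat.find_spec hex
      have hm0 : m ≠ 0 := by
        intro h0
        rw [h0] at hm1
        exact hv.1 hm1
      obtain ⟨l, hl⟩ := Nat.exists_eq_succ_of_ne_zero hm0
      refine ⟨π^[l] v, ?_, mem_sb.2 ⟨hv.2, l, rfl⟩⟩
      rw [mem_filter, mem_erase]
      refine ⟨⟨?_, hp.iter_mem hv.2 l⟩, ?_⟩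
      · intro h0
        have : m ≤ l := Nat.find_min' hex h0
        omega
      · rw [← Function.iterate_succ_apply' π]
        rw [hl] at hm1
        exact hm1
    have e2 : (b - 1) * nb S r c ≤ ∑ π ∈ (Par (⊤ : SimpleGraph V) S r).filter (Small S r c),
        ∑ x ∈ (S.erase r).filter (fun x => π x = r), (sb S π x).card := by
      unfold nb
      rw [mul_comm, ← smul_eq_mul, ← sum_const]
      exact sum_le_sum e1
    refine e2.trans ?_
    -- as a sum over pairs
    set U : Finset (V × (V → V)) := ((S.erase r) ×ˢ (Par (⊤ : SimpleGraph V) S r)).filter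
      (fun p => p.2 p.1 = r ∧ Small S r c p.2) with hU
    have e3 : ∑ π ∈ (Par (⊤ : SimpleGraph V) S r).filter (Small S r c),
        ∑ x ∈ (S.erase r).filter (fun x => π x = r), (sb S π x).card =
        ∑ p ∈ U, (sb S p.2 p.1).card := by
      rw [hU, sum_filter, sum_filter, sum_product_right]
      apply sum_congr rfl
      intro π _
      by_cases hs : Small S r c π
      · rw [if_pos hs, sum_filter]
        apply sum_congr rfl
        intro x _
        simp [hs]
      · rw [if_neg hs]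
        symm
        apply sum_eq_zero
        intro x _
        simp [hs]
    rw [e3]
    have e4 : ∀ p ∈ U, (sb S p.2 p.1).card ∈ Ico 1 (c + 1) := by
      rintro ⟨x, π⟩ hp
      rw [hU, mem_filter, mem_product, mem_erase, mem_Par] at hp
      obtain ⟨⟨⟨h1, h2⟩, h3⟩, h4, h5⟩ := hp
      rw [mem_Ico]
      simp only at *
      have h6 := h5 x h2 h1 h4
      have h7 : 0 < (sb S π x).card := card_pos.2 ⟨x, mem_sb.2 ⟨h2, 0, rfl⟩⟩
      omega
    rw [← sum_fiberwise_of_maps_to e4]
    apply sum_le_sum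
    intro M _
    have e5 : ∑ p ∈ U.filter (fun p => (sb S p.2 p.1).card = M), (sb S p.2 p.1).card =
        ∑ p ∈ U.filter (fun p => (sb S p.2 p.1).card = M), M := by
      apply sum_congr rfl
      intro p hp
      exact (mem_filter.1 hp).2
    rw [e5, sum_const, smul_eq_mul, mul_comm]
    apply Nat.mul_le_mul_left
    apply card_le_card
    rintro ⟨x, π⟩ hp
    rw [mem_filter, hU, mem_filter, mem_product] at hp
    obtain ⟨⟨⟨h1, h2⟩, h3, h4⟩, h5⟩ := hp
    rw [Mk, mem_filter, mem_product]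
    exact ⟨⟨h1, h2⟩, h3, h5, fun z hz hzr _ hpz => h4 z hz hzr hpz⟩
  have h2 : ∀ M ∈ Ico 1 (c + 1), ((M * (Mk S r M c).card : ℕ) : ℝ) ≤
      c * (5 / ((b - c : ℕ) : ℝ)) * a b * q b M := by
    intro M hM
    rw [mem_Ico] at hM
    have hbc0 : (0:ℝ) < ((b - c : ℕ) : ℝ) := by
      have : 0 < b - c := by omega
      positivity
    have h3 : ((Mk S r M c).card : ℝ) ≤ 5 / ((b - c : ℕ) : ℝ) * (q S.card M * a S.card) := by
      apply Mk_le hr
      intro C hC
      rw [mem_powersetCard] at hC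
      have hrC : r ∉ C := fun h => by have := hC.1 h; simp at this
      have hCS : C ⊆ S := hC.1.trans (erase_subset _ _)
      have e2 : (S \ C).card = b - M := by rw [card_sdiff_of_subset hCS, hC.2]
      have h4 := nb_half (S := S \ C) (mem_sdiff.2 ⟨hr, hrC⟩) (c := c) (by omega)
      rw [e2] at h4
      rw [← hb]
      refine h4.trans ?_
      apply mul_le_mul_of_nonneg_right _ (Nat.cast_nonneg _)
      apply div_le_div_of_nonneg_left (by norm_num) hbc0
      have : b - c ≤ b - M := by omega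
      exact_mod_cast this
    rw [← hb] at h3
    push_cast
    have h4 : (M:ℝ) ≤ c := by
      have : M ≤ c := by omega
      exact_mod_cast this
    calc (M:ℝ) * (Mk S r M c).card ≤ c * (5 / ((b - c : ℕ) : ℝ) * (q b M * a b)) :=
          mul_le_mul h4 h3 (Nat.cast_nonneg _) (Nat.cast_nonneg _)
      _ = _ := by ring
  have h3 : (((b - 1) * nb S r c : ℕ) : ℝ) ≤ c * (5 / ((b - c : ℕ) : ℝ)) * a b * 2 := by
    have h4 : (((b - 1) * nb S r c : ℕ) : ℝ) ≤
        ((∑ M ∈ Ico 1 (c + 1), M * (Mk S r M c).card : ℕ) : ℝ) := by exact_mod_cast h1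
    refine h4.trans ?_
    rw [Nat.cast_sum]
    refine (sum_le_sum h2).trans ?_
    rw [← mul_sum]
    apply mul_le_mul_of_nonneg_left _ (by positivity)
    have h5 : ∑ M ∈ Ico 1 (c + 1), q b M ≤ ∑ M ∈ Ico 1 b, q b M := by
      apply sum_le_sum_of_subset_of_nonneg
      · apply Ico_subset_Ico le_rfl (by omega)
      · intro _ _ _; exact q_nonneg _ _
    refine h5.trans ?_
    rw [sum_q hb2, div_le_iff₀ hb0]
    have : ((b - 1 : ℕ) : ℝ) ≤ b := by exact_mod_cast Nat.sub_le b 1
    linarith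
  rw [Nat.cast_mul, Nat.cast_sub hb1, Nat.cast_sub (by omega : c ≤ b)] at h3
  have hbr : (2:ℝ) ≤ b := by exact_mod_cast hb2
  have hcr : 3 * (c:ℝ) ≤ b := by exact_mod_cast hc
  have hc0 : (0:ℝ) ≤ c := Nat.cast_nonneg _
  have h4 : (b:ℝ) / 2 * nb S r c ≤ c * (5 / ((b:ℝ) - c)) * a b * 2 := by
    refine le_trans ?_ h3
    apply mul_le_mul_of_nonneg_right _ (Nat.cast_nonneg _)
    push_cast
    linarith
  have h5 : (5:ℝ) / (b - c) ≤ 15 / (2 * b) := by
    rw [div_le_div_iff₀ (by linarith) (by positivity)]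
    linarith
  have h6 : (b:ℝ) / 2 * nb S r c ≤ c * (15 / (2 * b)) * a b * 2 := by
    refine h4.trans ?_
    apply mul_le_mul_of_nonneg_right _ (by norm_num)
    apply mul_le_mul_of_nonneg_right _ ha.le
    exact mul_le_mul_of_nonneg_left h5 hc0
  have h7 : (b:ℝ) / 2 * nb S r c ≤ b / 2 * (30 * c / (b : ℝ) ^ 2 * a b) := by
    refine h6.trans (le_of_eq ?_)
    field_simp
    ring
  exact le_of_mul_le_mul_left h7 (by positivity)

end Pool.Agent.Q287.RS
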