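import Pool.Agent.Q287.RS.Pot

/-! Random seed trees: total variation, the seed distance and its mean. -/

set_option linter.unusedSectionVars false

namespace Pool.Agent.Q287.RS

open Finset Filter Topology Pool.Agent.W151.TreeNum Pool.Agent.W151.TreeRec

attribute [local instance] Classical.propDecidable

/-- A set of graphs which is invariant under isomorphisms, that is, a set of unlabelled graphs. -/
def IsoInv {n : ℕ} (A : Set (SimpleGraph (Fin n))) : Prop :=
  ∀ G H : SimpleGraph (Fin n), Nonempty (G ≃g H) → (G ∈ A ↔ H ∈ A)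

/-- The probability of `PA(k + m, T) ∈ A`. -/
noncomputable def paP {k : ℕ} (T : SimpleGraph (Fin k)) (m : ℕ)
    (A : Set (SimpleGraph (Fin (k + m)))) : ℝ :=
  paE T m fun G => if G ∈ A then 1 else 0

/-- The total variation distance between `PA(k + m, S)` and `PA(k + m, T)` as unlabelled trees. -/
noncomputable def tv {k : ℕ} (S T : SimpleGraph (Fin k)) (m : ℕ) : ℝ :=
  ⨆ A : {A : Set (SimpleGraph (Fin (k + m))) // IsoInv A}, |paP S m A.1 - paP T m A.1|

/-- The seed distance `δ(S, T) = lim_n TV(PA(n, S), PA(n, T))`; the total variation distances are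
nonincreasing (see `tv_antitone`), so that their limit is their infimum. -/
noncomputable def seedDist {k : ℕ} (S T : SimpleGraph (Fin k)) : ℝ := ⨅ m : ℕ, tv S T m

/-- `E δ(T_k, R_k)` for independent uniformly random labelled trees `T_k`, `R_k` on `k` vertices. -/
noncomputable def meanDist (k : ℕ) : ℝ :=
  (∑ S ∈ trees (Fin k), ∑ T ∈ trees (Fin k), seedDist S T) / ((trees (Fin k)).card : ℝ) ^ 2

section
variable {k : ℕ}

lemma paE_mono (hk : 2 ≤ k) {T : SimpleGraph (Fin k)} (hT : T.IsTree) (m : ℕ)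
    {F F' : SimpleGraph (Fin (k + m)) → ℝ} (h : ∀ G, G.IsTree → F G ≤ F' G) :
    paE T m F ≤ paE T m F' := by
  obtain ⟨π0, h1, h2⟩ := tree_par hT ⟨0, by omega⟩
  rw [← h2, paE_eq, paE_eq]
  exact pE_mono hk h1 m _ _ fun π hπ => h _ (par_tree hπ.par)

lemma paE_const (hk : 2 ≤ k) {T : SimpleGraph (Fin k)} (hT : T.IsTree) (m : ℕ) (c : ℝ) :
    paE T m (fun _ => c) = c := by
  obtain ⟨π0, h1, h2⟩ := tree_par hT ⟨0, by omega⟩
  rw [← h2, paE_eq]
  exact pE_const hk h1 c m

lemma paE_congr (hk : 2 ≤ k) {T : SimpleGraph (Fin k)} (hT : T.IsTree) (m : ℕ)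
    {F F' : SimpleGraph (Fin (k + m)) → ℝ} (h : ∀ G, G.IsTree → F G = F' G) :
    paE T m F = paE T m F' :=
  le_antisymm (paE_mono hk hT m fun G hG => (h G hG).le)
    (paE_mono hk hT m fun G hG => (h G hG).ge)

lemma paE_add (T : SimpleGraph (Fin k)) : ∀ (m : ℕ) (F F' : SimpleGraph (Fin (k + m)) → ℝ),
    paE T m (fun G => F G + F' G) = paE T m F + paE T m F' := by
  intro m
  induction m with
  | zero => intro F F'; rfl
  | succ m ih =>
    intro F F'
    rw [paE, paE, paE, ← ih]
    congr 1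
    funext G
    rw [← sum_add_distrib]
    apply sum_congr rfl
    intro i _
    ring

lemma paE_mul (T : SimpleGraph (Fin k)) (c : ℝ) : ∀ (m : ℕ)
    (F : SimpleGraph (Fin (k + m)) → ℝ), paE T m (fun G => c * F G) = c * paE T m F := by
  intro m
  induction m with
  | zero => intro F; rfl
  | succ m ih =>
    intro F
    rw [paE, paE, ← ih]
    congr 1
    funext G
    rw [mul_sum]
    apply sum_congr rfl
    intro i _
    ring

lemma paE_sum {ι : Type} (T : SimpleGraph (Fin k)) (m : ℕ) (A : Finset ι)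
    (F : ι → SimpleGraph (Fin (k + m)) → ℝ) :
    paE T m (fun G => ∑ a ∈ A, F a G) = ∑ a ∈ A, paE T m (F a) := by
  induction A using Finset.induction_on with
  | empty =>
    simp only [sum_empty]
    have := paE_mul T 0 m (fun _ => 0)
    simpa using this
  | insert a A ha ih =>
    rw [sum_insert ha, ← ih, ← paE_add]
    congr 1
    funext G
    rw [sum_insert ha]

/-- expectations as finite sums -/
lemma paE_expand (T : SimpleGraph (Fin k)) (m : ℕ) (F : SimpleGraph (Fin (k + m)) → ℝ) :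
    paE T m F = ∑ H : SimpleGraph (Fin (k + m)), F H * paE T m (fun G => if G = H then 1 else 0) := by
  have h1 : F = fun G => ∑ H : SimpleGraph (Fin (k + m)), F H * (if G = H then 1 else 0) := by
    funext G
    simp
  conv_lhs => rw [h1]
  rw [paE_sum]
  apply sum_congr rfl
  intro H _
  rw [paE_mul]

lemma paP_mem (hk : 2 ≤ k) {T : SimpleGraph (Fin k)} (hT : T.IsTree) (m : ℕ)
    (A : Set (SimpleGraph (Fin (k + m)))) : 0 ≤ paP T m A ∧ paP T m A ≤ 1 := by
  unfold paP
  constructor
  · refine le_trans (le_of_eq (paE_const hk hT m 0).symm) (paE_mono hk hT m ?_)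
    intro G _
    split_ifs <;> norm_num
  · refine le_trans (paE_mono hk hT m (F' := fun _ => 1) ?_) (le_of_eq (paE_const hk hT m 1))
    intro G _
    split_ifs <;> norm_num

lemma abs_le_one (hk : 2 ≤ k) {S T : SimpleGraph (Fin k)} (hS : S.IsTree) (hT : T.IsTree) (m : ℕ)
    (A : Set (SimpleGraph (Fin (k + m)))) : |paP S m A - paP T m A| ≤ 1 := by
  obtain ⟨h1, h2⟩ := paP_mem hk hS m A
  obtain ⟨h3, h4⟩ := paP_mem hk hT m A
  rw [abs_le]
  constructor <;> linarith

lemma tv_bdd (S T : SimpleGraph (Fin k)) (m : ℕ) : BddAbove (Set.range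
    fun A : {A : Set (SimpleGraph (Fin (k + m))) // IsoInv A} => |paP S m A.1 - paP T m A.1|) :=
  (Set.finite_range _).bddAbove

instance (n : ℕ) : Nonempty {A : Set (SimpleGraph (Fin n)) // IsoInv A} :=
  ⟨⟨∅, fun _ _ _ => by simp⟩⟩

lemma le_tv (S T : SimpleGraph (Fin k)) (m : ℕ) {A : Set (SimpleGraph (Fin (k + m)))}
    (hA : IsoInv A) : |paP S m A - paP T m A| ≤ tv S T m :=
  le_ciSup (tv_bdd S T m) ⟨A, hA⟩

lemma tv_nonneg (S T : SimpleGraph (Fin k)) (m : ℕ) : 0 ≤ tv S T m :=
  le_trans (abs_nonneg _) (le_tv S T m (A := ∅) (fun _ _ _ => by simp))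

lemma tv_le_one (hk : 2 ≤ k) {S T : SimpleGraph (Fin k)} (hS : S.IsTree) (hT : T.IsTree) (m : ℕ) :
    tv S T m ≤ 1 := ciSup_le fun A => abs_le_one hk hS hT m A.1

lemma tv_comm (S T : SimpleGraph (Fin k)) (m : ℕ) : tv S T m = tv T S m := by
  unfold tv
  congr 1
  funext A
  rw [abs_sub_comm]

/-- class sums -/
lemma class_bound {n : ℕ} (c h : SimpleGraph (Fin n) → ℝ)
    (hh : ∀ G H : SimpleGraph (Fin n), Nonempty (G ≃g H) → h G = h H)
    (h0 : ∀ G, 0 ≤ h G) (h1 : ∀ G, h G ≤ 1) :
    ∃ A : Set (SimpleGraph (Fin n)), IsoInv A ∧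
      ∑ G, h G * c G ≤ ∑ G, (if G ∈ A then 1 else 0) * c G := by
  set cls : SimpleGraph (Fin n) → Finset (SimpleGraph (Fin n)) :=
    fun G => univ.filter (fun H => Nonempty (G ≃g H)) with hcls
  have hmem : ∀ G H, H ∈ cls G ↔ Nonempty (G ≃g H) := by intro G H; simp [hcls]
  have hself : ∀ G, G ∈ cls G := fun G => (hmem G G).2 ⟨SimpleGraph.Iso.refl⟩
  have hsym : ∀ G H, H ∈ cls G ↔ G ∈ cls H := by
    intro G H
    rw [hmem, hmem]
    exact ⟨fun ⟨e⟩ => ⟨e.symm⟩, fun ⟨e⟩ => ⟨e.symm⟩⟩
  have heq : ∀ G H, Nonempty (G ≃g H) → cls G = cls H := by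
    rintro G H ⟨e⟩
    ext K
    rw [hmem, hmem]
    exact ⟨fun ⟨f⟩ => ⟨e.symm.trans f⟩, fun ⟨f⟩ => ⟨e.trans f⟩⟩
  have hpos : ∀ G, (0:ℝ) < (cls G).card := by
    intro G
    have : 0 < (cls G).card := card_pos.2 ⟨G, hself G⟩
    exact_mod_cast this
  set C : SimpleGraph (Fin n) → ℝ := fun G => ∑ H ∈ cls G, c H with hC
  have key : ∀ f : SimpleGraph (Fin n) → ℝ, (∀ G H, Nonempty (G ≃g H) → f G = f H) →
      ∑ G, f G * c G = ∑ G, f G * (C G / (cls G).card) := by
    intro f hf
    have e1 : ∀ G ∈ (univ : Finset (SimpleGraph (Fin n))), f G * (C G / (cls G).card) =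
        ∑ H : SimpleGraph (Fin n), if H ∈ cls G then f H * c H / (cls H).card else 0 := by
      intro G _
      rw [← sum_filter]
      have e2 : (univ : Finset (SimpleGraph (Fin n))).filter (fun H => H ∈ cls G) = cls G := by
        ext H; simp
      rw [e2, hC]
      simp only
      rw [sum_div, mul_sum]
      apply sum_congr rfl
      intro H hH
      rw [hmem] at hH
      rw [hf G H hH, heq G H hH]
      ring
    rw [sum_congr rfl e1, sum_comm]
    apply sum_congr rfl
    intro H _
    have e3 : ∑ G : SimpleGraph (Fin n), (if H ∈ cls G then f H * c H / (cls H).card else 0) =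
        ∑ G ∈ cls H, f H * c H / (cls H).card := by
      rw [← sum_filter]
      congr 1
      ext G
      rw [mem_filter]
      simp only [mem_univ, true_and]
      exact hsym G H
    rw [e3, sum_const, nsmul_eq_mul]
    have := (hpos H).ne'
    field_simp
  set A : Set (SimpleGraph (Fin n)) := {G | 0 < C G} with hA
  have hAinv : IsoInv A := by
    intro G H hGH
    show 0 < C G ↔ 0 < C H
    rw [hC]
    simp only
    rw [heq G H hGH]
  refine ⟨A, hAinv, ?_⟩
  rw [key h hh, key (fun G => if G ∈ A then 1 else 0) (fun G H hGH => by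
    simp only [hAinv G H hGH])]
  apply sum_le_sum
  intro G _
  by_cases hG : 0 < C G
  · have : G ∈ A := hG
    rw [if_pos this]
    apply mul_le_mul_of_nonneg_right (h1 G)
    exact div_nonneg hG.le (hpos G).le
  · have : G ∉ A := hG
    rw [if_neg this, zero_mul]
    apply mul_nonpos_of_nonneg_of_nonpos (h0 G)
    exact div_nonpos_of_nonpos_of_nonneg (not_lt.1 hG) (hpos G).le

/-- bounded invariant functions -/
lemma invariant_bound (hk : 2 ≤ k) {S T : SimpleGraph (Fin k)} (hS : S.IsTree) (hT : T.IsTree)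
    (m : ℕ) (h : SimpleGraph (Fin (k + m)) → ℝ)
    (hh : ∀ G H : SimpleGraph (Fin (k + m)), Nonempty (G ≃g H) → h G = h H)
    (h0 : ∀ G, G.IsTree → 0 ≤ h G) (h1 : ∀ G, G.IsTree → h G ≤ 1) :
    paE S m h - paE T m h ≤ tv S T m := by
  set h' : SimpleGraph (Fin (k + m)) → ℝ := fun G => if G.IsTree then h G else 0 with hh'
  have e1 : paE S m h = paE S m h' := paE_congr hk hS m fun G hG => by simp [hh', hG]
  have e2 : paE T m h = paE T m h' := paE_congr hk hT m fun G hG => by simp [hh', hG]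
  have i1 : ∀ G H : SimpleGraph (Fin (k + m)), Nonempty (G ≃g H) → h' G = h' H := by
    rintro G H ⟨e⟩
    simp only [hh']
    rw [e.isTree_iff, hh G H ⟨e⟩]
  have i2 : ∀ G, 0 ≤ h' G := by
    intro G
    simp only [hh']
    split_ifs with hG
    · exact h0 G hG
    · exact le_rfl
  have i3 : ∀ G, h' G ≤ 1 := by
    intro G
    simp only [hh']
    split_ifs with hG
    · exact h1 G hG
    · norm_num
  set c : SimpleGraph (Fin (k + m)) → ℝ := fun H =>
    paE S m (fun G => if G = H then 1 else 0) - paE T m (fun G => if G = H then 1 else 0) with hc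
  have e3 : ∀ F : SimpleGraph (Fin (k + m)) → ℝ, paE S m F - paE T m F = ∑ G, F G * c G := by
    intro F
    rw [paE_expand S m F, paE_expand T m F, ← sum_sub_distrib]
    apply sum_congr rfl
    intro G _
    rw [hc]
    ring
  obtain ⟨A, hA, hle⟩ := class_bound c h' i1 i2 i3
  rw [e1, e2, e3 h']
  refine hle.trans ?_
  rw [← e3 (fun G => if G ∈ A then 1 else 0)]
  exact (le_abs_self _).trans (le_tv S T m hA)

/-- one step as an isomorphism-invariant function -/
noncomputable def stepFun {n : ℕ} (A : Set (SimpleGraph (Fin (n + 1)))) (G : SimpleGraph (Fin n)) :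
    ℝ := ∑ i : Fin n, (deg G i : ℝ) / (2 * ((n : ℝ) - 1)) * (if attach G i ∈ A then 1 else 0)

lemma attach_iso {n : ℕ} {G H : SimpleGraph (Fin n)} (e : G ≃g H) (i : Fin n) :
    Nonempty (attach G i ≃g attach H (e i)) := by
  set f : Fin (n + 1) → Fin (n + 1) :=
    Fin.lastCases (Fin.last n) (fun v => (e v).castSucc) with hf
  set g : Fin (n + 1) → Fin (n + 1) :=
    Fin.lastCases (Fin.last n) (fun v => (e.symm v).castSucc) with hg
  have f1 : f (Fin.last n) = Fin.last n := by simp [hf]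
  have f2 : ∀ v : Fin n, f v.castSucc = (e v).castSucc := by intro v; simp [hf]
  have g1 : g (Fin.last n) = Fin.last n := by simp [hg]
  have g2 : ∀ v : Fin n, g v.castSucc = (e.symm v).castSucc := by intro v; simp [hg]
  have hadj : ∀ (G : SimpleGraph (Fin n)) (i u v : Fin n),
      (attach G i).Adj u.castSucc v.castSucc ↔ G.Adj u v := by
    intro G i u v
    unfold attach
    rw [SimpleGraph.sup_adj, SimpleGraph.map_adj', SimpleGraph.edge_adj]
    constructor
    · rintro (⟨_, u', v', h1, h2, h3⟩ | ⟨h1 | h1, _⟩)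
      · rwa [← Fin.castSucc_injective _ h2, ← Fin.castSucc_injective _ h3]
      · exact absurd h1.2.symm (last_ne _)
      · exact absurd h1.1.symm (last_ne _)
    · intro h1
      exact Or.inl ⟨fun h => h1.ne (Fin.castSucc_injective _ h), u, v, h1, rfl, rfl⟩
  have hadj2 : ∀ (G : SimpleGraph (Fin n)) (i u : Fin n),
      (attach G i).Adj u.castSucc (Fin.last n) ↔ u = i := by
    intro G i u
    unfold attach
    rw [SimpleGraph.sup_adj, SimpleGraph.map_adj', SimpleGraph.edge_adj]
    constructor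
    · rintro (⟨_, u', v', h1, h2, h3⟩ | ⟨h1 | h1, _⟩)
      · exact absurd h3.symm (last_ne _)
      · exact Fin.castSucc_injective _ h1.1
      · exact absurd h1.1.symm (last_ne _)
    · rintro rfl
      exact Or.inr ⟨Or.inl ⟨rfl, rfl⟩, (last_ne _).symm⟩
  refine ⟨{ toFun := f, invFun := g, left_inv := ?_, right_inv := ?_, map_rel_iff' := ?_ }⟩
  · intro v
    induction v using Fin.lastCases with
    | last => rw [f1, g1]
    | cast v => rw [f2, g2, e.symm_apply_apply]
  · intro v
    induction v using Fin.lastCases with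
    | last => rw [g1, f1]
    | cast v => rw [g2, f2, e.apply_symm_apply]
  · intro u v
    show (attach H (e i)).Adj (f u) (f v) ↔ (attach G i).Adj u v
    induction u using Fin.lastCases with
    | last =>
      induction v using Fin.lastCases with
      | last => simp
      | cast v =>
        rw [f1, f2, SimpleGraph.adj_comm, hadj2, SimpleGraph.adj_comm (attach G i), hadj2]
        exact e.injective.eq_iff
    | cast u =>
      induction v using Fin.lastCases with
      | last => rw [f1, f2, hadj2, hadj2]; exact e.injective.eq_iff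
      | cast v => rw [f2, f2, hadj, hadj]; exact e.map_adj_iff

lemma deg_iso {n : ℕ} {G H : SimpleGraph (Fin n)} (e : G ≃g H) (i : Fin n) :
    deg H (e i) = deg G i := by
  unfold deg
  symm
  apply card_bij (fun v _ => e v)
  · intro v hv
    rw [mem_filter] at hv ⊢
    exact ⟨mem_univ _, e.map_adj_iff.2 hv.2⟩
  · intro v _ v' _ heq
    exact e.injective heq
  · intro w hw
    rw [mem_filter] at hw
    refine ⟨e.symm w, ?_, e.apply_symm_apply w⟩
    rw [mem_filter]
    refine ⟨mem_univ _, ?_⟩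
    rw [← e.map_adj_iff, e.apply_symm_apply]
    exact hw.2

lemma stepFun_iso {n : ℕ} {A : Set (SimpleGraph (Fin (n + 1)))} (hA : IsoInv A)
    {G H : SimpleGraph (Fin n)} (e : G ≃g H) : stepFun A G = stepFun A H := by
  unfold stepFun
  rw [← Equiv.sum_comp e.toEquiv (fun j => (deg H j : ℝ) / (2 * ((n : ℝ) - 1)) *
    (if attach H j ∈ A then 1 else 0))]
  apply sum_congr rfl
  intro i _
  have h1 : deg H (e.toEquiv i) = deg G i := deg_iso e i
  have h2 : (attach G i ∈ A) ↔ (attach H (e.toEquiv i) ∈ A) := hA _ _ (attach_iso e i)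
  rw [h1]
  simp only [h2]

lemma stepFun_bounds {n : ℕ} (hn : 2 ≤ n) (A : Set (SimpleGraph (Fin (n + 1))))
    {G : SimpleGraph (Fin n)} (hG : G.IsTree) : 0 ≤ stepFun A G ∧ stepFun A G ≤ 1 := by
  obtain ⟨π, h1, h2⟩ := tree_par hG ⟨0, by omega⟩
  have h3 : stepFun A G = E1 π (fun i => if attach G i ∈ A then 1 else 0) := by
    unfold stepFun E1
    rw [h2]
  rw [h3]
  constructor
  · refine le_trans (le_of_eq (E1_const h1 hn 0).symm) (E1_mono hn ?_)
    intro i
    split_ifs <;> norm_num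
  · refine le_trans (E1_mono hn (F' := fun _ => 1) ?_) (le_of_eq (E1_const h1 hn 1))
    intro i
    split_ifs <;> norm_num

/-- the total variation distance does not increase -/
theorem tv_succ_le (hk : 2 ≤ k) {S T : SimpleGraph (Fin k)} (hS : S.IsTree) (hT : T.IsTree)
    (m : ℕ) : tv S T (m + 1) ≤ tv S T m := by
  apply ciSup_le
  rintro ⟨A, hA⟩
  simp only
  have e1 : ∀ U : SimpleGraph (Fin k), paP U (m + 1) A = paE U m (stepFun A) := fun U => rfl
  rw [e1, e1]
  have hb := fun (G : SimpleGraph (Fin (k + m))) (hG : G.IsTree) =>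
    stepFun_bounds (by omega : 2 ≤ k + m) A hG
  have hinv : ∀ G H : SimpleGraph (Fin (k + m)), Nonempty (G ≃g H) →
      stepFun A G = stepFun A H := fun G H ⟨e⟩ => stepFun_iso hA e
  rw [abs_le]
  constructor
  · have := invariant_bound hk hT hS m (stepFun A) hinv (fun G hG => (hb G hG).1)
      (fun G hG => (hb G hG).2)
    rw [tv_comm T S] at this
    linarith
  · exact invariant_bound hk hS hT m (stepFun A) hinv (fun G hG => (hb G hG).1)
      (fun G hG => (hb G hG).2)

theorem tv_antitone (hk : 2 ≤ k) {S T : SimpleGraph (Fin k)} (hS : S.IsTree) (hT : T.IsTree) :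
    Antitone (tv S T) := antitone_nat_of_succ_le (tv_succ_le hk hS hT)

/-- the seed distance is the limit of the total variation distances -/
theorem tendsto_tv (hk : 2 ≤ k) {S T : SimpleGraph (Fin k)} (hS : S.IsTree) (hT : T.IsTree) :
    Tendsto (tv S T) atTop (𝓝 (seedDist S T)) := by
  apply tendsto_atTop_ciInf (tv_antitone hk hS hT)
  refine ⟨0, ?_⟩
  rintro x ⟨m, rfl⟩
  exact tv_nonneg S T m

lemma seedDist_nonneg (S T : SimpleGraph (Fin k)) : 0 ≤ seedDist S T :=
  le_ciInf fun m => tv_nonneg S T m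

lemma seedDist_le_one (hk : 2 ≤ k) {S T : SimpleGraph (Fin k)} (hS : S.IsTree) (hT : T.IsTree) :
    seedDist S T ≤ 1 := by
  refine (ciInf_le ⟨0, ?_⟩ 0).trans (tv_le_one hk hS hT 0)
  rintro x ⟨m, rfl⟩
  exact tv_nonneg S T m

/-- trees with different statistics are far apart -/
theorem seed_lower (hk : 2 ≤ k) {S T : SimpleGraph (Fin k)} (hS : S.IsTree) (hT : T.IsTree)
    {ε : ℝ} (hε : 0 < ε)
    (hsep : 2 * (ε + 1 / ((k:ℝ) - 1)) < |(Mst S : ℝ) / k - Mst T / k|) :
    1 - 4 / (k * ε ^ 2) ≤ seedDist S T := by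
  apply le_ciInf
  intro m
  set A : Set (SimpleGraph (Fin (k + m))) :=
    {G | |(Mst G : ℝ) / ((k + m : ℕ) : ℝ) - Mst T / k| ≤ ε + 1 / ((k:ℝ) - 1)} with hA
  have hinv : IsoInv A := by
    rintro G H ⟨e⟩
    show |(Mst G : ℝ) / ((k + m : ℕ) : ℝ) - Mst T / k| ≤ ε + 1 / ((k:ℝ) - 1) ↔
      |(Mst H : ℝ) / ((k + m : ℕ) : ℝ) - Mst T / k| ≤ ε + 1 / ((k:ℝ) - 1)
    rw [Mst_iso e]
  refine le_trans ?_ (le_tv S T m hinv)
  have h1 : 1 - 2 / (k * ε ^ 2) ≤ paP T m A := conc hk hT hε m
  have h2 := conc hk hS hε m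
  have h3 : paP S m A + paE S m (fun G => if |(Mst G : ℝ) / ((k + m : ℕ) : ℝ) - Mst S / k| ≤
      ε + 1 / ((k:ℝ) - 1) then 1 else 0) ≤ 1 := by
    unfold paP
    rw [← paE_add]
    refine le_trans (paE_mono hk hS m (F' := fun _ => 1) ?_) (le_of_eq (paE_const hk hS m 1))
    intro G _
    by_cases c1 : G ∈ A
    · rw [if_pos c1, if_neg]
      · norm_num
      · intro c2
        have c1' : |(Mst G : ℝ) / ((k + m : ℕ) : ℝ) - Mst T / k| ≤ ε + 1 / ((k:ℝ) - 1) := c1
        have := abs_sub_le ((Mst S : ℝ) / k) ((Mst G : ℝ) / ((k + m : ℕ) : ℝ)) (Mst T / k)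
        rw [abs_sub_comm ((Mst S : ℝ) / k) ((Mst G : ℝ) / ((k + m : ℕ) : ℝ))] at this
        linarith
    · rw [if_neg c1]
      split_ifs <;> norm_num
  have h4 : (4:ℝ) / (k * ε ^ 2) = 2 / (k * ε ^ 2) + 2 / (k * ε ^ 2) := by ring
  rw [abs_sub_comm]
  refine le_trans ?_ (le_abs_self _)
  linarith

end

lemma card_near (a0 : ℕ) {L : ℝ} (hL : 0 ≤ L) {A : Finset ℕ} (hA : ∀ m ∈ A, |(m:ℝ) - a0| ≤ L) :
    (A.card : ℝ) ≤ 2 * L + 1 := by
  have h1 : A ⊆ Icc (a0 - ⌊L⌋₊) (a0 + ⌊L⌋₊) := by
    intro m hm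
    have h2 := abs_le.1 (hA m hm)
    rw [mem_Icc]
    constructor
    · rcases Nat.le_total a0 m with h | h
      · omega
      · have h3 : ((a0 - m : ℕ) : ℝ) ≤ L := by
          rw [Nat.cast_sub h]; linarith
        have := Nat.le_floor h3
        omega
    · rcases Nat.le_total m a0 with h | h
      · omega
      · have h3 : ((m - a0 : ℕ) : ℝ) ≤ L := by
          rw [Nat.cast_sub h]; linarith
        have := Nat.le_floor h3
        omega
  have h2 := card_le_card h1
  rw [Nat.card_Icc] at h2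
  have h3 : A.card ≤ 2 * ⌊L⌋₊ + 1 := by omega
  have h4 : (A.card : ℝ) ≤ 2 * (⌊L⌋₊ : ℝ) + 1 := by exact_mod_cast h3
  have h5 := Nat.floor_le hL
  linarith

/-- lower bound for the mean -/
theorem mean_lower {k : ℕ} (hk : 2 ≤ k) {ε : ℝ} (hε : 0 < ε) (hε1 : 4 / (k * ε ^ 2) ≤ 1) :
    1 - (4 / (k * ε ^ 2) + (1000 + 510 * √(4 * (ε + 1 / ((k:ℝ) - 1)) * k + 1)) / √k) ≤
      meanDist k := by
  have hkr : (2:ℝ) ≤ k := by exact_mod_cast hk
  have hk0 : (0:ℝ) < k := by linarith
  have hk1 : (0:ℝ) < (k:ℝ) - 1 := by linarith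
  have : Nonempty (Fin k) := ⟨⟨0, by omega⟩⟩
  set t : ℝ := ((trees (Fin k)).card : ℝ) with ht
  have hta : t = a k := by rw [ht, card_trees, Fintype.card_fin]
  have ht0 : 0 < t := by rw [hta]; exact a_pos' (by omega)
  set δ := 4 / (k * ε ^ 2) with hδ
  have hδ0 : 0 ≤ δ := by positivity
  set ε' := ε + 1 / ((k:ℝ) - 1) with hε'
  have hε'0 : 0 < ε' := by positivity
  set R := (1000 + 510 * √(4 * ε' * k + 1)) / √k with hR
  have hR0 : 0 ≤ R := by positivity
  have hrow : ∀ S ∈ trees (Fin k), (1 - δ) * (t * (1 - R)) ≤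
      ∑ T ∈ trees (Fin k), seedDist S T := by
    intro S hS
    have hS' : S.IsTree := (mem_filter.1 hS).2
    set near := (trees (Fin k)).filter (fun T => |(Mst S : ℝ) / k - Mst T / k| ≤ 2 * ε') with hnear
    have hn : (near.card : ℝ) ≤ R * t := by
      set A : Finset ℕ := (range (k + 1)).filter (fun m => |(Mst S : ℝ) / k - m / k| ≤ 2 * ε')
        with hA
      have h1 : near ⊆ (trees (Fin k)).filter (fun G => Mst G ∈ A) := by
        intro T hT
        rw [hnear, mem_filter] at hT
        rw [mem_filter, hA, mem_filter, mem_range]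
        refine ⟨hT.1, ?_, hT.2⟩
        have := Mst_half (mem_filter.1 hT.1).2 (by rw [Fintype.card_fin]; exact hk)
        rw [Fintype.card_fin] at this
        omega
      have h2 := anti (V := Fin k) (by rw [Fintype.card_fin]; exact hk) A
      rw [Fintype.card_fin, ← hta] at h2
      have h3 : (near.card : ℝ) ≤ (((trees (Fin k)).filter (fun G => Mst G ∈ A)).card : ℝ) := by
        exact_mod_cast card_le_card h1
      refine h3.trans (h2.trans ?_)
      apply mul_le_mul_of_nonneg_right _ ht0.le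
      rw [hR]
      apply div_le_div_of_nonneg_right _ (Real.sqrt_nonneg _)
      have h4 : (A.card : ℝ) ≤ 2 * (2 * ε' * k) + 1 := by
        apply card_near (Mst S) (by positivity)
        intro m hm
        rw [hA, mem_filter] at hm
        have h5 := hm.2
        rw [← sub_div, abs_div, abs_of_pos hk0, div_le_iff₀ hk0, abs_sub_comm] at h5
        exact h5
      have h5 : √(A.card : ℝ) ≤ √(4 * ε' * k + 1) := by
        apply Real.sqrt_le_sqrt
        linarith
      linarith
    have h1 : ∀ T ∈ trees (Fin k), (1 - δ) * (1 - (if T ∈ near then 1 else 0)) ≤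
        seedDist S T := by
      intro T hT
      have hT' : T.IsTree := (mem_filter.1 hT).2
      by_cases hc : T ∈ near
      · rw [if_pos hc]
        simp only [sub_self, mul_zero]
        exact seedDist_nonneg S T
      · rw [if_neg hc, sub_zero, mul_one]
        apply seed_lower hk hS' hT' hε
        by_contra hcon
        exact hc (mem_filter.2 ⟨hT, not_lt.1 hcon⟩)
    refine le_trans ?_ (sum_le_sum h1)
    rw [← mul_sum]
    apply mul_le_mul_of_nonneg_left _ (by linarith)
    rw [sum_sub_distrib, sum_const, nsmul_eq_mul, mul_one, ← ht]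
    have h2 : ∑ T ∈ trees (Fin k), (if T ∈ near then (1:ℝ) else 0) = near.card := by
      rw [sum_ite_mem, inter_eq_right.2 (filter_subset _ _), sum_const, nsmul_eq_mul, mul_one]
    rw [h2]
    linarith
  have hsum := sum_le_sum hrow
  rw [sum_const, nsmul_eq_mul, ← ht] at hsum
  unfold meanDist
  rw [← ht, le_div_iff₀ (by positivity)]
  refine le_trans ?_ hsum
  have h5 : t * ((1 - δ) * (t * (1 - R))) = (1 - δ - R + δ * R) * t ^ 2 := by ring
  rw [h5]
  apply mul_le_mul_of_nonneg_right _ (by positivity)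
  have : 0 ≤ δ * R := mul_nonneg hδ0 hR0
  linarith

theorem mean_le_one {k : ℕ} (hk : 2 ≤ k) : meanDist k ≤ 1 := by
  have : Nonempty (Fin k) := ⟨⟨0, by omega⟩⟩
  have ht0 : (0:ℝ) < ((trees (Fin k)).card : ℝ) := by
    rw [card_trees, Fintype.card_fin]; exact a_pos' (by omega)
  unfold meanDist
  rw [div_le_one (by positivity)]
  have h1 : ∀ S ∈ trees (Fin k), ∑ T ∈ trees (Fin k), seedDist S T ≤
      ((trees (Fin k)).card : ℝ) := by
    intro S hS
    have h2 : ∀ T ∈ trees (Fin k), seedDist S T ≤ 1 := fun T hT =>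
      seedDist_le_one hk (mem_filter.1 hS).2 (mem_filter.1 hT).2
    refine (sum_le_sum h2).trans ?_
    simp
  refine (sum_le_sum h1).trans ?_
  rw [sum_const, nsmul_eq_mul]
  exact le_of_eq (by ring)

/-- explicit rate -/
theorem mean_rate {k : ℕ} (hk : 2 ≤ k) : 1 - 4000 / √√√(k:ℝ) ≤ meanDist k := by
  have hkr : (2:ℝ) ≤ k := by exact_mod_cast hk
  have hk0 : (0:ℝ) < k := by linarith
  set w := √(k:ℝ) with hw
  set u := √w with hu
  set v := √u with hv
  have hw2 : w ^ 2 = k := Real.sq_sqrt hk0.le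
  have hw1 : 1 ≤ w := by rw [hw, Real.one_le_sqrt]; linarith
  have hu2 : u ^ 2 = w := Real.sq_sqrt (by linarith)
  have hu1 : 1 ≤ u := by rw [hu, Real.one_le_sqrt]; exact hw1
  have hv2 : v ^ 2 = u := Real.sq_sqrt (by linarith)
  have hv1 : 1 ≤ v := by rw [hv, Real.one_le_sqrt]; exact hu1
  by_cases hbig : 4000 / v ≤ 1
  · have hv4 : 4000 ≤ v := by rwa [div_le_one (by linarith)] at hbig
    have h1 := mean_lower hk (ε := 1 / u) (by positivity) (by
      rw [← hw2, ← hu2, one_div, inv_pow]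
      have : (u ^ 2) ^ 2 * (u ^ 2)⁻¹ = u ^ 2 := by field_simp
      rw [this, div_le_one (by positivity)]
      nlinarith)
    refine le_trans ?_ h1
    apply sub_le_sub_left
    rw [← hw]
    have e1 : 4 / ((k:ℝ) * (1 / u) ^ 2) = 4 / w := by
      rw [← hw2, one_div, inv_pow, hu2]
      field_simp
    rw [e1]
    have hk1 : (k:ℝ) / (k - 1) ≤ 2 := by
      rw [div_le_iff₀ (by linarith)]
      linarith
    have e2 : 4 * (1 / u + 1 / ((k:ℝ) - 1)) * k + 1 ≤ 13 * (k / u) := by
      have e3 : 4 * (1 / u + 1 / ((k:ℝ) - 1)) * k + 1 = 4 * (k / u) + 4 * (k / (k - 1)) + 1 := by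
        have : (k:ℝ) - 1 ≠ 0 := by linarith
        field_simp
      have e4 : 1 ≤ k / u := by
        rw [le_div_iff₀ (by linarith), one_mul, ← hw2, ← hu2]
        nlinarith [pow_pos (by linarith : (0:ℝ) < u) 3]
      rw [e3]
      linarith
    have e5 : √(4 * (1 / u + 1 / ((k:ℝ) - 1)) * k + 1) ≤ 4 * (w / v) := by
      refine (Real.sqrt_le_sqrt e2).trans ?_
      rw [Real.sqrt_le_left (by positivity)]
      have : (4 * (w / v)) ^ 2 = 16 * (k / u) := by
        rw [mul_pow, div_pow, hw2, hv2]; norm_num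
      rw [this]
      have : 0 ≤ (k:ℝ) / u := by positivity
      linarith
    have e6 : (1000 + 510 * √(4 * (1 / u + 1 / ((k:ℝ) - 1)) * k + 1)) / w ≤
        1000 / w + 2040 / v := by
      rw [div_le_iff₀ (by linarith)]
      have : (1000 / w + 2040 / v) * w = 1000 + 2040 * (w / v) := by
        have : w ≠ 0 := by linarith
        have : v ≠ 0 := by linarith
        field_simp
      rw [this]
      linarith
    have e7 : 1 / w ≤ 1 / v := by
      apply one_div_le_one_div_of_le (by linarith)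
      rw [← hu2, ← hv2]
      nlinarith [sq_nonneg v, sq_nonneg (v ^ 2)]
    have e8 : 4 / w = 4 * (1 / w) := by ring
    have e9 : 1000 / w = 1000 * (1 / w) := by ring
    have e10 : 4000 / v = 4000 * (1 / v) := by ring
    have e11 : 2040 / v = 2040 * (1 / v) := by ring
    have e12 : 0 ≤ 1 / v := by positivity
    rw [e8, e10]
    rw [e9, e11] at e6
    linarith
  · have h1 : 0 ≤ meanDist k := by
      unfold meanDist
      apply div_nonneg _ (by positivity)
      exact sum_nonneg fun S _ => sum_nonneg fun T _ => seedDist_nonneg S T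
    linarith

theorem tendsto_mean : Tendsto meanDist atTop (𝓝 1) := by
  have h1 : Tendsto (fun k : ℕ => 1 - 4000 / √√√(k:ℝ)) atTop (𝓝 (1 - 0)) := by
    apply Tendsto.const_sub
    apply Tendsto.const_div_atTop
    exact Real.tendsto_sqrt_atTop.comp (Real.tendsto_sqrt_atTop.comp
      (Real.tendsto_sqrt_atTop.comp tendsto_natCast_atTop_atTop))
  rw [sub_zero] at h1
  apply tendsto_of_tendsto_of_tendsto_of_le_of_le' h1 tendsto_const_nhds
  · filter_upwards [eventually_ge_atTop 2] with k hk using mean_rate hk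
  · filter_upwards [eventually_ge_atTop 2] with k hk using mean_le_one hk

end Pool.Agent.Q287.RS
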