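import Pool.Agent.Q287.RS.Cnt

/-! Random seed trees: the statistic of a tree, through its edge cuts. -/

set_option linter.unusedSectionVars false

namespace Pool.Agent.Q287.RS

open Finset Pool.Agent.W151.TreeNum Pool.Agent.W151.TreeRec

attribute [local instance] Classical.propDecidable

variable {V : Type} [Fintype V]

/-- the graph of a parent function -/
def Gp (π : V → V) : SimpleGraph V where
  Adj a b := a ≠ b ∧ (π a = b ∨ π b = a)
  symm := ⟨fun _ _ h => ⟨h.1.symm, h.2.symm⟩⟩
  loopless := ⟨fun _ h => h.1 rfl⟩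

/-- the number of ordered edges leaving `A` -/
noncomputable def cutCard (G : SimpleGraph V) (A : Finset V) : ℕ :=
  (univ.filter (fun p : V × V => p.1 ∈ A ∧ p.2 ∉ A ∧ G.Adj p.1 p.2)).card

/-- the statistic: the largest size of the smaller side of an edge cut -/
noncomputable def Mst (G : SimpleGraph V) : ℕ :=
  ((univ : Finset (Finset V)).filter (fun A => cutCard G A = 1)).sup
    (fun A => min A.card (Fintype.card V - A.card))

lemma periodic_root {π : V → V} {r x : V} (hr : π r = r) (hx : ∃ k, π^[k] x = r) {j : ℕ}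
    (hj : π^[j + 1] x = x) : x = r := by
  obtain ⟨k, hk⟩ := hx
  have h1 : ∀ m, π^[(j + 1) * m] x = x := by
    intro m
    induction m with
    | zero => rfl
    | succ m ih => rw [Nat.mul_succ, Function.iterate_add_apply, hj, ih]
  have h2 : π^[(j + 1) * k] x = r := by
    have h3 : (j + 1) * k = j * k + k := by ring
    rw [h3, Function.iterate_add_apply, hk, iter_fix hr]
  rw [h1 k] at h2
  exact h2

section
variable {r : V} {π : V → V} (h : IsPar (⊤ : SimpleGraph V) univ r π)
include h

lemma par_ne {v : V} (hv : v ≠ r) : v ≠ π v := by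
  have := (h.2.1 v (mem_univ _) hv).2
  rwa [SimpleGraph.top_adj] at this

lemma par_reach (v : V) : ∃ k, π^[k] v = r := h.2.2 v (mem_univ _)

lemma mem_sbu {x v : V} : v ∈ sb univ π x ↔ ∃ j, π^[j] v = x := by simp [sb]

lemma self_mem (x : V) : x ∈ sb univ π x := (mem_sbu h).2 ⟨0, rfl⟩

lemma step_mem {x v : V} (hv : v ∈ sb univ π x) (hvx : v ≠ x) : π v ∈ sb univ π x := by
  rw [mem_sbu h] at hv ⊢
  obtain ⟨j, hj⟩ := hv
  rcases j with _ | j
  · exact absurd hj hvx
  · exact ⟨j, by rwa [Function.iterate_succ_apply] at hj⟩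

lemma mem_of_step {x v : V} (hv : π v ∈ sb univ π x) : v ∈ sb univ π x := by
  rw [mem_sbu h] at hv ⊢
  obtain ⟨j, hj⟩ := hv
  exact ⟨j + 1, by rw [Function.iterate_succ_apply]; exact hj⟩

lemma parent_notMem {x : V} (hx : x ≠ r) : π x ∉ sb univ π x := by
  intro h1
  rw [mem_sbu h] at h1
  obtain ⟨j, hj⟩ := h1
  rw [← Function.iterate_succ_apply] at hj
  exact hx (periodic_root h.root (par_reach h x) hj)

lemma root_notMem {x : V} (hx : x ≠ r) : r ∉ sb univ π x := by
  intro h1
  rw [mem_sbu h] at h1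
  obtain ⟨j, hj⟩ := h1
  rw [iter_fix h.root] at hj
  exact hx hj.symm

/-- the descendants of a vertex form an edge cut -/
lemma cut_sb {x : V} (hx : x ≠ r) : cutCard (Gp π) (sb univ π x) = 1 := by
  unfold cutCard
  rw [card_eq_one]
  refine ⟨(x, π x), ?_⟩
  ext ⟨u, v⟩
  simp only [mem_filter, mem_univ, true_and, mem_singleton, Prod.mk.injEq]
  constructor
  · rintro ⟨h1, h2, h3, h4 | h4⟩
    · have hux : u = x := by
        by_contra hne
        apply h2
        rw [← h4]
        exact step_mem h h1 hne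
      subst hux
      exact ⟨rfl, h4.symm⟩
    · exfalso
      apply h2
      rw [← h4] at h1
      exact mem_of_step h h1
  · rintro ⟨rfl, rfl⟩
    exact ⟨self_mem h _, parent_notMem h hx, par_ne h hx, Or.inl rfl⟩

/-- a cut which does not contain the root is the set of descendants of a vertex -/
lemma cut_eq {A : Finset V} (hA : cutCard (Gp π) A = 1) (hr : r ∉ A) :
    ∃ x, x ≠ r ∧ A = sb univ π x := by
  unfold cutCard at hA
  rw [card_eq_one] at hA
  obtain ⟨⟨u, v⟩, huv⟩ := hA
  have hmem : ∀ u' v', (u' ∈ A ∧ v' ∉ A ∧ (Gp π).Adj u' v') ↔ (u' = u ∧ v' = v) := by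
    intro u' v'
    have := Finset.ext_iff.1 huv (u', v')
    simpa using this
  obtain ⟨hu, hv, _⟩ := (hmem u v).2 ⟨rfl, rfl⟩
  have hur : u ≠ r := by rintro rfl; exact hr hu
  -- every vertex of A passes through u and leaves A there
  have key : ∀ (k : ℕ) (w : V), w ∈ A → π^[k] w = r → (∃ j, π^[j] w = u) ∧ π u = v := by
    intro k
    induction k with
    | zero =>
      intro w hw hk
      have : w = r := hk
      rw [this] at hw
      exact absurd hw hr
    | succ k ih =>
      intro w hw hk
      by_cases hπ : π w ∈ A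
      · rw [Function.iterate_succ_apply] at hk
        obtain ⟨⟨j, hj⟩, h2⟩ := ih (π w) hπ hk
        exact ⟨⟨j + 1, by rw [Function.iterate_succ_apply]; exact hj⟩, h2⟩
      · have hwr : w ≠ r := by rintro rfl; exact hr hw
        have h1 := (hmem w (π w)).1 ⟨hw, hπ, par_ne h hwr, Or.inl rfl⟩
        refine ⟨⟨0, h1.1⟩, ?_⟩
        rw [← h1.1]; exact h1.2
  obtain ⟨k0, hk0⟩ := par_reach h u
  have hπu : π u = v := (key k0 u hu hk0).2
  refine ⟨u, hur, ?_⟩
  ext w
  rw [mem_sbu h]
  constructor
  · intro hw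
    obtain ⟨k, hk⟩ := par_reach h w
    exact (key k w hw hk).1
  · rintro ⟨j, hj⟩
    revert w
    induction j with
    | zero => intro w hj; have : w = u := hj; rw [this]; exact hu
    | succ j ih =>
      intro w hj
      rw [Function.iterate_succ_apply] at hj
      have h1 := ih (π w) hj
      by_contra hw
      have hwr : w ≠ r := by
        rintro rfl
        rw [h.root, iter_fix h.root] at hj
        exact hur hj.symm
      have h2 := (hmem (π w) w).1 ⟨h1, hw, (par_ne h hwr).symm, Or.inr rfl⟩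
      -- π w = u, w = v
      have h3 : π^[1 + 1] u = u := by
        show π (π u) = u
        rw [hπu, ← h2.2, h2.1]
      exact hur (periodic_root h.root (par_reach h u) h3)

end

lemma cutCard_compl (G : SimpleGraph V) (A : Finset V) : cutCard G Aᶜ = cutCard G A := by
  unfold cutCard
  apply card_bij (fun p _ => (p.2, p.1))
  · intro p hp
    simp only [mem_filter, mem_univ, true_and, mem_compl, not_not] at hp ⊢
    exact ⟨hp.2.1, hp.1, hp.2.2.symm⟩
  · intro p _ p' _ heq
    simp only [Prod.mk.injEq] at heq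
    exact Prod.ext heq.2 heq.1
  · rintro ⟨u, v⟩ hp
    simp only [mem_filter, mem_univ, true_and, mem_compl, not_not] at hp
    refine ⟨(v, u), ?_, rfl⟩
    simp only [mem_filter, mem_univ, true_and, mem_compl, not_not]
    exact ⟨hp.2.1, hp.1, hp.2.2.symm⟩

lemma le_Mst {G : SimpleGraph V} {A : Finset V} (hA : cutCard G A = 1) :
    min A.card (Fintype.card V - A.card) ≤ Mst G := by
  unfold Mst
  exact Finset.le_sup (f := fun A : Finset V => min A.card (Fintype.card V - A.card))
    (mem_filter.2 ⟨mem_univ _, hA⟩)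

lemma le_Mst_par {r : V} {π : V → V} (h : IsPar (⊤ : SimpleGraph V) univ r π) {x : V}
    (hx : x ≠ r) : min (sb univ π x).card (Fintype.card V - (sb univ π x).card) ≤ Mst (Gp π) :=
  le_Mst (cut_sb h hx)

/-- the child of the root above a vertex -/
lemma exists_child {r : V} {π : V → V} (h : IsPar (⊤ : SimpleGraph V) univ r π) {v : V}
    (hv : v ≠ r) : ∃ z, z ≠ r ∧ π z = r ∧ v ∈ sb univ π z := by
  obtain ⟨k, hk⟩ := par_reach h v
  revert v
  induction k with
  | zero => intro v hv hk; exact absurd hk hv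
  | succ k ih =>
    intro v hv hk
    by_cases h1 : π v = r
    · exact ⟨v, hv, h1, self_mem h v⟩
    · rw [Function.iterate_succ_apply] at hk
      obtain ⟨z, hz, hz2, hz3⟩ := ih h1 hk
      exact ⟨z, hz, hz2, mem_of_step h hz3⟩

lemma sb_sub_of_mem {r : V} {π : V → V} (h : IsPar (⊤ : SimpleGraph V) univ r π) {x z : V}
    (hx : x ∈ sb univ π z) : sb univ π x ⊆ sb univ π z := by
  intro v hv
  rw [mem_sbu h] at hv hx ⊢
  obtain ⟨j, hj⟩ := hv
  obtain ⟨i, hi⟩ := hx
  refine ⟨i + j, ?_⟩
  rw [Function.iterate_add_apply, hj, hi]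

lemma Mst_le_par {r : V} {π : V → V} (h : IsPar (⊤ : SimpleGraph V) univ r π) {B : ℕ}
    (hB : ∀ z, z ≠ r → π z = r → (sb univ π z).card ≤ B) : Mst (Gp π) ≤ B := by
  unfold Mst
  apply Finset.sup_le
  intro A hA
  have hA' := (mem_filter.1 hA).2
  have key : ∀ A : Finset V, cutCard (Gp π) A = 1 → r ∉ A → A.card ≤ B := by
    intro A hA hr
    obtain ⟨x, hx, hAx⟩ := cut_eq h hA hr
    obtain ⟨z, hz, hz2, hz3⟩ := exists_child h hx
    rw [hAx]
    exact (card_le_card (sb_sub_of_mem h hz3)).trans (hB z hz hz2)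
  by_cases hr : r ∈ A
  · have h1 : cutCard (Gp π) Aᶜ = 1 := by rw [cutCard_compl]; exact hA'
    have h2 := key Aᶜ h1 (by simp [hr])
    rw [card_compl] at h2
    exact (min_le_right _ _).trans h2
  · exact (min_le_left _ _).trans (key A hA' hr)

/-- invariance -/
lemma Mst_le_iso {W : Type} [Fintype W] {G : SimpleGraph V} {H : SimpleGraph W} (e : G ≃g H) :
    Mst G ≤ Mst H := by
  have hcard : Fintype.card V = Fintype.card W := Fintype.card_congr e.toEquiv
  unfold Mst
  apply Finset.sup_le
  intro A hA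
  have hA' := (mem_filter.1 hA).2
  have h1 : cutCard H (A.map e.toEquiv.toEmbedding) = 1 := by
    rw [← hA']
    unfold cutCard
    symm
    apply card_bij (fun p _ => (e p.1, e p.2))
    · intro p hp
      simp only [mem_filter, mem_univ, true_and] at hp ⊢
      refine ⟨?_, ?_, ?_⟩
      · exact mem_map_of_mem _ hp.1
      · rw [mem_map]
        rintro ⟨w, hw, hww⟩
        have : w = p.2 := e.injective hww
        rw [this] at hw
        exact hp.2.1 hw
      · exact e.map_adj_iff.2 hp.2.2
    · intro p _ p' _ heq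
      simp only [Prod.mk.injEq] at heq
      exact Prod.ext (e.injective heq.1) (e.injective heq.2)
    · rintro ⟨u, v⟩ hp
      simp only [mem_filter, mem_univ, true_and] at hp
      obtain ⟨h2, h3, h4⟩ := hp
      rw [mem_map] at h2
      obtain ⟨u', hu', rfl⟩ := h2
      refine ⟨(u', e.symm v), ?_, ?_⟩
      · simp only [mem_filter, mem_univ, true_and]
        refine ⟨hu', ?_, ?_⟩
        · intro h5
          apply h3
          rw [mem_map]
          exact ⟨e.symm v, h5, e.apply_symm_apply v⟩
        · rw [← e.map_adj_iff, e.apply_symm_apply]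
          exact h4
      · simp only [e.apply_symm_apply]
        rfl
  have h2 := le_Mst h1
  rw [card_map] at h2
  rw [hcard]
  exact h2

lemma Mst_iso {W : Type} [Fintype W] {G : SimpleGraph V} {H : SimpleGraph W} (e : G ≃g H) :
    Mst G = Mst H := le_antisymm (Mst_le_iso e) (Mst_le_iso e.symm)

/-- trees are graphs of parent functions, for every choice of the root -/
lemma tree_par {G : SimpleGraph V} (hG : G.IsTree) (r : V) :
    ∃ π, IsPar (⊤ : SimpleGraph V) univ r π ∧ Gp π = G := by
  set H : (⊤ : SimpleGraph V).Subgraph :=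
    { verts := Set.univ
      Adj := G.Adj
      adj_sub := fun h => h.ne
      edge_vert := fun _ => Set.mem_univ _
      symm := ⟨fun _ _ h => h.symm⟩ } with hH
  have e : H.coe ≃g G :=
    { toEquiv := Equiv.Set.univ V
      map_rel_iff' := by intro a b; rfl }
  have h1 : H.coe.IsTree := e.isTree_iff.2 hG
  obtain ⟨π, h2, h3⟩ := Phi_surj (mem_univ r) H h1 (by simp [hH])
  refine ⟨π, h2, ?_⟩
  ext a b
  have h4 : (Phi ⊤ univ π).Adj a b ↔ G.Adj a b := by rw [h3]
  rw [← h4]
  constructor
  · rintro ⟨h5, h6⟩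
    exact ⟨mem_univ _, mem_univ _, h5, h6⟩
  · rintro ⟨_, _, h5, h6⟩
    exact ⟨h5, h6⟩

lemma par_tree {r : V} {π : V → V} (h : IsPar (⊤ : SimpleGraph V) univ r π) :
    (Gp π).IsTree := by
  have h1 := Phi_isTree (mem_univ r) h
  have e : (Phi ⊤ univ π).coe ≃g Gp π :=
    { toEquiv :=
        { toFun := fun x => x.1
          invFun := fun x => ⟨x, by show x ∈ ((univ : Finset V) : Set V); simp⟩
          left_inv := fun _ => rfl
          right_inv := fun _ => rfl }
      map_rel_iff' := by
        intro a b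
        constructor
        · rintro ⟨h5, h6⟩
          exact ⟨mem_univ _, mem_univ _, h5, h6⟩
        · rintro ⟨_, _, h5, h6⟩
          exact ⟨h5, h6⟩ }
  exact e.isTree_iff.1 h1

lemma Gp_inj {r : V} {π π' : V → V} (h : IsPar (⊤ : SimpleGraph V) univ r π)
    (h' : IsPar (⊤ : SimpleGraph V) univ r π') (he : Gp π = Gp π') : π = π' := by
  apply Phi_inj h h'
  apply SimpleGraph.Subgraph.ext
  · rfl
  · funext a b
    apply propext
    have h1 : (Gp π).Adj a b ↔ (Gp π').Adj a b := by rw [he]
    constructor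
    · rintro ⟨h2, h3, h4, h5⟩
      have := h1.1 ⟨h4, h5⟩
      exact ⟨h2, h3, h4, this.2⟩
    · rintro ⟨h2, h3, h4, h5⟩
      have := h1.2 ⟨h4, h5⟩
      exact ⟨h2, h3, h4, this.2⟩

/-- the labelled trees -/
noncomputable def trees (V : Type) [Fintype V] : Finset (SimpleGraph V) :=
  univ.filter (fun G => G.IsTree)

lemma card_trees [Nonempty V] : (trees V).card = a (Fintype.card V) := by
  obtain ⟨r⟩ := ‹Nonempty V›
  have h1 : (Par (⊤ : SimpleGraph V) univ r).card = (trees V).card := by
    apply card_bij (fun π _ => Gp π)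
    · intro π hπ
      rw [trees, mem_filter]
      exact ⟨mem_univ _, par_tree (mem_Par.1 hπ)⟩
    · intro π hπ π' hπ' he
      exact Gp_inj (mem_Par.1 hπ) (mem_Par.1 hπ') he
    · intro G hG
      rw [trees, mem_filter] at hG
      obtain ⟨π, h2, h3⟩ := tree_par hG.2 r
      exact ⟨π, mem_Par.2 h2, h3⟩
  rw [← h1, card_Par (mem_univ r), card_univ]

/-- the structure of a tree at its centre -/
theorem structure_lemma {G : SimpleGraph V} (hG : G.IsTree) (hV : 2 ≤ Fintype.card V) :
    ∃ (y x : V) (π : V → V), IsPar (⊤ : SimpleGraph V) univ y π ∧ Gp π = G ∧ x ≠ y ∧ π x = y ∧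
      (sb univ π x).card = Mst G ∧ (∀ z, z ≠ y → π z = y → (sb univ π z).card ≤ Mst G) ∧
      2 * Mst G ≤ Fintype.card V := by
  -- a cut attaining the maximum
  have hne : ((univ : Finset (Finset V)).filter (fun A => cutCard G A = 1)).Nonempty := by
    obtain ⟨r, x, hrx⟩ := Fintype.exists_ne_of_one_lt_card (α := V) (by omega) |> fun h => by
      have : Nontrivial V := Fintype.one_lt_card_iff_nontrivial.1 (by omega)
      exact this.exists_pair_ne
    obtain ⟨π, h1, h2⟩ := tree_par hG r
    refine ⟨sb univ π x, mem_filter.2 ⟨mem_univ _, ?_⟩⟩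
    rw [← h2]
    exact cut_sb h1 hrx.symm
  obtain ⟨A0, hA0, hA0m⟩ := Finset.exists_mem_eq_sup _ hne
    (fun A : Finset V => min A.card (Fintype.card V - A.card))
  have hA0' := (mem_filter.1 hA0).2
  have hM : Mst G = min A0.card (Fintype.card V - A0.card) := hA0m
  obtain ⟨A, hA, hAm, hA2⟩ : ∃ A : Finset V, cutCard G A = 1 ∧ A.card = Mst G ∧
      2 * A.card ≤ Fintype.card V := by
    have hle : A0.card ≤ Fintype.card V := card_le_univ _
    rcases Nat.le_total A0.card (Fintype.card V - A0.card) with h1 | h1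
    · exact ⟨A0, hA0', by rw [hM, min_eq_left h1], by omega⟩
    · refine ⟨A0ᶜ, by rw [cutCard_compl]; exact hA0', ?_, ?_⟩
      · rw [hM, min_eq_right h1, card_compl]
      · rw [card_compl]; omega
  -- the crossing pair
  have hA1 := hA
  unfold cutCard at hA1
  rw [card_eq_one] at hA1
  obtain ⟨⟨x, y⟩, hxy⟩ := hA1
  have hmem : ∀ u' v', (u' ∈ A ∧ v' ∉ A ∧ G.Adj u' v') ↔ (u' = x ∧ v' = y) := by
    intro u' v'
    have := Finset.ext_iff.1 hxy (u', v')
    simpa using this
  obtain ⟨hx, hy, hadj⟩ := (hmem x y).2 ⟨rfl, rfl⟩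
  obtain ⟨π, h1, h2⟩ := tree_par hG y
  have hA' : cutCard (Gp π) A = 1 := by rw [h2]; exact hA
  obtain ⟨u, hu, hAu⟩ := cut_eq h1 hA' hy
  have h3 := (hmem u (π u)).1 ⟨by rw [hAu]; exact self_mem h1 u,
    by rw [hAu]; exact parent_notMem h1 hu, by rw [← h2]; exact ⟨par_ne h1 hu, Or.inl rfl⟩⟩
  obtain ⟨hux, hpu⟩ := h3
  subst hux
  refine ⟨y, u, π, h1, h2, hu, hpu, by rw [← hAu, hAm], ?_, by rw [← hAm]; exact hA2⟩
  intro z hz hpz
  by_cases hzu : z = u
  · subst hzu
    rw [← hAu, hAm]
  · have hd := sb_disj h1 hu hz hpu hpz (Ne.symm hzu)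
    have h6 : (sb univ π u ∪ sb univ π z).card ≤ (univ.erase y).card :=
      card_le_card (union_subset (sb_erase h1 hu) (sb_erase h1 hz))
    rw [card_union_of_disjoint hd, card_erase_of_mem (mem_univ _), card_univ, ← hAu, hAm] at h6
    have h7 := le_Mst_par h1 hz
    rw [h2] at h7
    have h8 : 0 < Fintype.card V := by omega
    rcases min_le_iff.1 h7 with h9 | h9
    · exact h9
    · omega

end Pool.Agent.Q287.RS
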