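import Mathlib
import Pool.Agent.W151.TreeNum

/-! Random seed trees: numerical estimates for the sizes of branches in uniform rooted trees. -/

namespace Pool.Agent.Q287.RS

open Finset Pool.Agent.W151.TreeNum

/-- the probability generating weights of a branch of size `M` at the root of a uniform rooted tree
with `b` vertices -/
noncomputable def q (b M : ℕ) : ℝ :=
  ((b - 1).choose M : ℝ) * M * (a M : ℝ) * (a (b - M) : ℝ) / (a b : ℝ)

lemma q_nonneg (b M : ℕ) : 0 ≤ q b M := by unfold q; positivity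

lemma a_mul_sq {n : ℕ} (h : 1 ≤ n) : (a n : ℝ) * (n : ℝ) ^ 2 = (n : ℝ) ^ n := by
  unfold a
  rcases Nat.lt_or_ge n 2 with h1 | h1
  · have : n = 1 := by omega
    subst this; simp
  · push_cast
    rw [← pow_add, Nat.sub_add_cancel h1]

lemma q_eq {b M : ℕ} (h1 : 1 ≤ M) (h2 : M < b) :
    q b M = (b.choose M : ℝ) * (M : ℝ) ^ M * ((b - M : ℕ) : ℝ) ^ (b - M) / (b : ℝ) ^ b *
      (b / (M * ((b - M : ℕ) : ℝ))) := by
  unfold q
  have hM : (M : ℝ) ≠ 0 := by positivity
  have hb : (b : ℝ) ≠ 0 := by have : 0 < b := by omega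
                              positivity
  have hbM : ((b - M : ℕ) : ℝ) ≠ 0 := by have : 0 < b - M := by omega
                                         positivity
  have hab : (a b : ℝ) ≠ 0 := by have := a_pos (n := b) (by omega); positivity
  rw [← a_mul_sq h1, ← a_mul_sq (n := b - M) (by omega), ← a_mul_sq (n := b) (by omega)]
  have hc : (b : ℝ) * ((b - 1).choose M : ℝ) = (b.choose M : ℝ) * ((b - M : ℕ) : ℝ) := by
    obtain ⟨n, rfl⟩ : ∃ n, b = n + 1 := ⟨b - 1, by omega⟩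
    have h3 := Nat.choose_mul_succ_eq n M
    rw [Nat.add_sub_cancel]
    have h4 : (n.choose M : ℝ) * ((n + 1 : ℕ) : ℝ) = ((n + 1).choose M : ℝ) *
        ((n + 1 - M : ℕ) : ℝ) := by exact_mod_cast h3
    linarith
  have hc' : ((b - 1).choose M : ℝ) = (b.choose M : ℝ) * ((b - M : ℕ) : ℝ) / b := by
    rw [eq_div_iff hb]; linarith
  rw [hc']
  field_simp

lemma q_symm {b M : ℕ} (h1 : 1 ≤ M) (h2 : M < b) : q b (b - M) = q b M := by
  rw [q_eq h1 h2, q_eq (b := b) (M := b - M) (by omega) (by omega)]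
  have h3 : b - (b - M) = M := by omega
  rw [h3, Nat.choose_symm h2.le]
  ring

lemma sum_q_mul {b : ℕ} (hb : 2 ≤ b) :
    ∑ M ∈ Ico 1 b, q b M * ((b - M : ℕ) : ℝ) = (b - 1 : ℕ) := by
  obtain ⟨n, rfl⟩ : ∃ n, b = n + 2 := ⟨b - 2, by omega⟩
  have hab : (a (n + 2) : ℝ) = ((n + 2) ^ n : ℕ) := by unfold a; simp
  have hpos : (0:ℝ) < (a (n + 2) : ℝ) := by exact_mod_cast a_pos (n := n + 2) (by omega)
  rw [Finset.sum_Ico_eq_sum_range]
  have h1 : ∀ j ∈ range (n + 2 - 1), q (n + 2) (1 + j) * ((n + 2 - (1 + j) : ℕ) : ℝ) =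
      ((n + 1 : ℕ) : ℝ) * (((n.choose j * (j + 1) ^ (j - 1) * (n + 1 - j) ^ (n - j) : ℕ) : ℝ) /
        (a (n + 2) : ℝ)) := by
    intro j hj
    rw [Finset.mem_range] at hj
    unfold q
    have e1 : n + 2 - (1 + j) = (n - j) + 1 := by omega
    have e2 : n + 1 - j = (n - j) + 1 := by omega
    have e3 : (a (n - j + 1) : ℝ) * ((n - j + 1 : ℕ) : ℝ) = ((n - j + 1 : ℕ) : ℝ) ^ (n - j) := by
      have := mul_a (n - j)
      have h3 : (((n - j + 1) * a (n - j + 1) : ℕ) : ℝ) = (((n - j + 1) ^ (n - j) : ℕ) : ℝ) := by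
        exact_mod_cast this
      push_cast at h3 ⊢
      linarith
    have e4 : ((n + 2 - 1).choose (1 + j) : ℝ) * ((1 + j : ℕ) : ℝ) =
        ((n + 1 : ℕ) : ℝ) * (n.choose j : ℝ) := by
      have h3 := Nat.add_one_mul_choose_eq n j
      have h4 : (n + 1) * n.choose j = (n + 1).choose (1 + j) * (1 + j) := by
        rw [add_comm 1 j]; exact h3
      have h5 : (((n + 1) * n.choose j : ℕ) : ℝ) = (((n + 1).choose (1 + j) * (1 + j) : ℕ) : ℝ) := by
        exact_mod_cast h4
      rw [show n + 2 - 1 = n + 1 by omega]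
      push_cast at h5 ⊢
      linarith
    have e5 : (a (1 + j) : ℝ) = ((j + 1 : ℕ) : ℝ) ^ (j - 1) := by
      unfold a
      rw [show 1 + j - 2 = j - 1 by omega, add_comm 1 j]
      push_cast; rfl
    rw [e1, e2, div_mul_eq_mul_div, e4, e5]
    rw [show ((n + 1 : ℕ) : ℝ) * (n.choose j : ℝ) * ((j + 1 : ℕ) : ℝ) ^ (j - 1) *
      (a (n - j + 1) : ℝ) * ((n - j + 1 : ℕ) : ℝ) = ((n + 1 : ℕ) : ℝ) * (n.choose j : ℝ) *
      ((j + 1 : ℕ) : ℝ) ^ (j - 1) * ((a (n - j + 1) : ℝ) * ((n - j + 1 : ℕ) : ℝ)) by ring, e3]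
    push_cast
    ring
  rw [Finset.sum_congr rfl h1, ← Finset.mul_sum, ← Finset.sum_div, ← Nat.cast_sum,
    show n + 2 - 1 = n + 1 by omega, Pool.Agent.W151.Abel.abel n, ← hab, div_self hpos.ne',
    mul_one]

/-- the expected number of branches at the root -/
lemma sum_q {b : ℕ} (hb : 2 ≤ b) : ∑ M ∈ Ico 1 b, q b M = 2 * ((b - 1 : ℕ) : ℝ) / b := by
  have h1 := sum_q_mul hb
  have h2 : ∑ M ∈ Ico 1 b, q b M * (M : ℝ) = (b - 1 : ℕ) := by
    rw [← h1]
    apply Finset.sum_nbij' (fun M => b - M) (fun M => b - M)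
    · intro M hM; rw [Finset.mem_Ico] at *; omega
    · intro M hM; rw [Finset.mem_Ico] at *; omega
    · intro M hM; rw [Finset.mem_Ico] at hM; omega
    · intro M hM; rw [Finset.mem_Ico] at hM; omega
    · intro M hM
      rw [Finset.mem_Ico] at hM
      rw [q_symm hM.1 hM.2, show b - (b - M) = M by omega]
  have hb0 : (0:ℝ) < b := by positivity
  have h3 : (∑ M ∈ Ico 1 b, q b M) * b = 2 * ((b - 1 : ℕ) : ℝ) := by
    rw [Finset.sum_mul]
    calc ∑ M ∈ Ico 1 b, q b M * b = ∑ M ∈ Ico 1 b, (q b M * ((b - M : ℕ) : ℝ) + q b M * M) := by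
          apply Finset.sum_congr rfl
          intro M hM
          rw [Finset.mem_Ico] at hM
          rw [Nat.cast_sub hM.2.le]
          ring
      _ = _ := by rw [Finset.sum_add_distrib, h1, h2]; ring
  rw [eq_div_iff hb0.ne', h3]

/-- upper bound for factorials -/
lemma fact_le {n : ℕ} (hn : 1 ≤ n) :
    (n.factorial : ℝ) ≤ Real.exp 1 * √n * (n / Real.exp 1) ^ n := by
  have h1 : Stirling.stirlingSeq n ≤ Real.exp 1 / √2 := by
    rw [← Stirling.stirlingSeq_one]
    obtain ⟨m, rfl⟩ : ∃ m, n = m + 1 := ⟨n - 1, by omega⟩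
    exact Stirling.stirlingSeq'_antitone (Nat.zero_le m)
  unfold Stirling.stirlingSeq at h1
  have hn0 : (0:ℝ) < n := by positivity
  rw [div_le_iff₀ (by positivity)] at h1
  refine h1.trans (le_of_eq ?_)
  rw [Real.sqrt_mul (by norm_num)]
  have : √(2:ℝ) ≠ 0 := by positivity
  field_simp

lemma choose_bound {b M : ℕ} (h1 : 1 ≤ M) (h2 : M < b) :
    (b.choose M : ℝ) * (M : ℝ) ^ M * ((b - M : ℕ) : ℝ) ^ (b - M) / (b : ℝ) ^ b ≤
      √(b / (M * ((b - M : ℕ) : ℝ))) := by
  have hM0 : (0:ℝ) < M := by positivity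
  have hb0 : (0:ℝ) < b := by have : 0 < b := by omega
                             positivity
  have hc0 : (0:ℝ) < ((b - M : ℕ) : ℝ) := by have : 0 < b - M := by omega
                                             positivity
  set c := b - M with hc
  have he := Real.exp_pos 1
  have f1 := fact_le (n := b) (by omega)
  have f2 := Stirling.le_factorial_stirling M
  have f3 := Stirling.le_factorial_stirling c
  have hfact : (b.choose M : ℝ) * M.factorial * c.factorial = b.factorial := by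
    rw [hc]; exact_mod_cast Nat.choose_mul_factorial_mul_factorial h2.le
  have hpow : (M : ℝ) ^ M * (c : ℝ) ^ c / (b : ℝ) ^ b = (M / Real.exp 1) ^ M *
      (c / Real.exp 1) ^ c / (b / Real.exp 1) ^ b := by
    rw [div_pow, div_pow, div_pow]
    have e1 : Real.exp 1 ^ b = Real.exp 1 ^ M * Real.exp 1 ^ c := by
      rw [← pow_add]; congr 1; omega
    rw [e1]
    field_simp
  set gM := ((M:ℝ) / Real.exp 1) ^ M with hgM
  set gc := ((c:ℝ) / Real.exp 1) ^ c with hgc
  set gb := ((b:ℝ) / Real.exp 1) ^ b with hgb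
  have gM0 : 0 < gM := by positivity
  have gc0 : 0 < gc := by positivity
  have gb0 : 0 < gb := by positivity
  have hlow : √(2 * Real.pi * M) * gM * (√(2 * Real.pi * c) * gc) ≤
      (M.factorial : ℝ) * c.factorial := mul_le_mul f2 f3 (by positivity) (by positivity)
  have hchoose : (b.choose M : ℝ) * (√(2 * Real.pi * M) * gM * (√(2 * Real.pi * c) * gc)) ≤
      Real.exp 1 * √b * gb := by
    calc (b.choose M : ℝ) * (√(2 * Real.pi * M) * gM * (√(2 * Real.pi * c) * gc)) ≤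
        (b.choose M : ℝ) * ((M.factorial : ℝ) * c.factorial) :=
          mul_le_mul_of_nonneg_left hlow (Nat.cast_nonneg _)
      _ = b.factorial := by rw [← hfact]; ring
      _ ≤ _ := f1
  have hpi : √(2 * Real.pi * M) * √(2 * Real.pi * c) = 2 * Real.pi * √(M * c) := by
    rw [← Real.sqrt_mul (by positivity), show 2 * Real.pi * (M:ℝ) * (2 * Real.pi * c) =
      (2 * Real.pi) ^ 2 * (M * c) by ring, Real.sqrt_mul (by positivity),
      Real.sqrt_sq (by positivity)]
  have e2 : Real.exp 1 ≤ 2 * Real.pi := by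
    have := Real.exp_one_lt_d9
    have := Real.pi_gt_three
    linarith
  have hsq : √((b:ℝ) / (M * c)) = √b / √(M * c) := Real.sqrt_div (by positivity) _
  rw [show (b.choose M : ℝ) * (M : ℝ) ^ M * (c : ℝ) ^ c / (b : ℝ) ^ b =
    (b.choose M : ℝ) * ((M : ℝ) ^ M * (c : ℝ) ^ c / (b : ℝ) ^ b) by ring, hpow, hsq]
  have hs0 : 0 < √((M:ℝ) * c) := by positivity
  rw [le_div_iff₀ hs0]
  have h5 : (b.choose M : ℝ) * (gM * gc) * (2 * Real.pi * √(M * c)) ≤ Real.exp 1 * √b * gb := by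
    refine le_trans (le_of_eq ?_) hchoose
    rw [← hpi]; ring
  have h6 : Real.exp 1 * ((b.choose M : ℝ) * (gM * gc) * √(M * c)) ≤ Real.exp 1 * (√b * gb) := by
    have h7 : 0 ≤ (b.choose M : ℝ) * (gM * gc) * √(M * c) := by positivity
    nlinarith
  have h7 := le_of_mul_le_mul_left h6 he
  calc (b.choose M : ℝ) * (gM * gc / gb) * √(M * c) =
      ((b.choose M : ℝ) * (gM * gc) * √(M * c)) / gb := by ring
    _ ≤ (√b * gb) / gb := div_le_div_of_nonneg_right h7 gb0.le
    _ = √b := by field_simp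

lemma q_le {b M : ℕ} (h1 : 1 ≤ M) (h2 : M < b) :
    q b M ≤ √(b / (M * ((b - M : ℕ) : ℝ))) * (b / (M * ((b - M : ℕ) : ℝ))) := by
  rw [q_eq h1 h2]
  apply mul_le_mul_of_nonneg_right (choose_bound h1 h2)
  positivity

/-- for `M ≥ b / 2` -/
lemma q_le' {b M : ℕ} (h1 : b ≤ 2 * M) (h2 : M < b) :
    q b M ≤ √(2 / ((b - M : ℕ) : ℝ)) * (2 / ((b - M : ℕ) : ℝ)) := by
  have hM : 1 ≤ M := by omega
  have hM0 : (0:ℝ) < M := by positivity
  have hc0 : (0:ℝ) < ((b - M : ℕ) : ℝ) := by have : 0 < b - M := by omega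
                                             positivity
  have h3 : (b:ℝ) / (M * ((b - M : ℕ) : ℝ)) ≤ 2 / ((b - M : ℕ) : ℝ) := by
    rw [div_le_div_iff₀ (by positivity) hc0]
    have h4 : (b:ℝ) ≤ 2 * M := by exact_mod_cast h1
    nlinarith
  refine (q_le hM h2).trans ?_
  exact mul_le_mul (Real.sqrt_le_sqrt h3) h3 (by positivity) (by positivity)

end Pool.Agent.Q287.RS
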