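import Pool.Agent.Q287.RS.Anti

/-! Random seed trees: the preferential attachment process. -/

set_option linter.unusedSectionVars false

namespace Pool.Agent.Q287.RS

open Finset Pool.Agent.W151.TreeNum Pool.Agent.W151.TreeRec

attribute [local instance] Classical.propDecidable

/-- The graph obtained from `G` (vertices `0, …, n - 1`) by adding the new vertex `n` and the edge
from it to `i`. -/
def attach {n : ℕ} (G : SimpleGraph (Fin n)) (i : Fin n) : SimpleGraph (Fin (n + 1)) :=
  G.map Fin.castSucc ⊔ SimpleGraph.edge i.castSucc (Fin.last n)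

/-- The degree of `i` in `G`. -/
noncomputable def deg {n : ℕ} (G : SimpleGraph (Fin n)) (i : Fin n) : ℕ :=
  (univ.filter (fun v => G.Adj i v)).card

/-- The expectation of `F (PA(k + m, T))`, where `T` is a tree on `k` vertices: conditionally on
`PA(k + m, T) = G` the next tree is `attach G i` with probability `deg G i / (2 (k + m - 1))`. -/
noncomputable def paE {k : ℕ} (T : SimpleGraph (Fin k)) :
    (m : ℕ) → (SimpleGraph (Fin (k + m)) → ℝ) → ℝ
  | 0, F => F T
  | m + 1, F => paE T m fun G =>
      ∑ i : Fin (k + m), (deg G i : ℝ) / (2 * (((k + m : ℕ) : ℝ) - 1)) * F (attach G i)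

/-- extension of a parent function -/
def ext {n : ℕ} (π : Fin n → Fin n) (i : Fin n) : Fin (n + 1) → Fin (n + 1) :=
  Fin.lastCases i.castSucc (fun v => (π v).castSucc)

section ext
variable {n : ℕ} {π : Fin n → Fin n} {i r : Fin n}

lemma ext_last : ext π i (Fin.last n) = i.castSucc := by simp [ext]

lemma ext_cast (v : Fin n) : ext π i v.castSucc = (π v).castSucc := by simp [ext]

lemma ext_iter (v : Fin n) (j : ℕ) : (ext π i)^[j] v.castSucc = (π^[j] v).castSucc := by
  induction j with
  | zero => rfl
  | succ j ih => rw [Function.iterate_succ_apply', Function.iterate_succ_apply', ih, ext_cast]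

lemma last_ne (v : Fin n) : Fin.last n ≠ v.castSucc := (Fin.castSucc_lt_last v).ne'

lemma ext_par (h : IsPar (⊤ : SimpleGraph (Fin n)) univ r π) (i : Fin n) :
    IsPar (⊤ : SimpleGraph (Fin (n + 1))) univ r.castSucc (ext π i) := by
  refine ⟨?_, ?_, ?_⟩
  · intro v hv
    rcases hv with hv | hv
    · exact absurd (mem_univ v) hv
    · rw [hv, ext_cast, h.root]
  · intro v _ hv
    refine ⟨mem_univ _, ?_⟩
    rw [SimpleGraph.top_adj]
    induction v using Fin.lastCases with
    | last => rw [ext_last]; exact last_ne i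
    | cast u =>
      rw [ext_cast]
      intro h1
      have h2 := Fin.castSucc_injective _ h1
      have hu : u ≠ r := fun h => hv (by rw [h])
      exact par_ne h hu h2
  · intro v _
    induction v using Fin.lastCases with
    | last =>
      obtain ⟨k, hk⟩ := par_reach h i
      refine ⟨k + 1, ?_⟩
      rw [Function.iterate_succ_apply, ext_last, ext_iter, hk]
    | cast u =>
      obtain ⟨k, hk⟩ := par_reach h u
      exact ⟨k, by rw [ext_iter, hk]⟩

lemma Gp_ext (π : Fin n → Fin n) (i : Fin n) : Gp (ext π i) = attach (Gp π) i := by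
  ext a b
  unfold attach
  rw [SimpleGraph.sup_adj, SimpleGraph.map_adj', SimpleGraph.edge_adj]
  show (a ≠ b ∧ (ext π i a = b ∨ ext π i b = a)) ↔ _
  induction a using Fin.lastCases with
  | last =>
    induction b using Fin.lastCases with
    | last => simp
    | cast b =>
      rw [ext_last, ext_cast]
      constructor
      · rintro ⟨_, h2 | h2⟩
        · right
          exact ⟨Or.inr ⟨rfl, h2.symm⟩, last_ne _⟩
        · exact absurd h2.symm (last_ne _)
      · rintro (⟨_, u, v, _, h3, _⟩ | ⟨h2 | h2, _⟩)
        · exact absurd h3.symm (last_ne _)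
        · exact absurd h2.1 (last_ne _)
        · exact ⟨last_ne _, Or.inl h2.2.symm⟩
  | cast a =>
    induction b using Fin.lastCases with
    | last =>
      rw [ext_last, ext_cast]
      constructor
      · rintro ⟨_, h2 | h2⟩
        · exact absurd h2.symm (last_ne _)
        · right
          exact ⟨Or.inl ⟨h2.symm, rfl⟩, (last_ne _).symm⟩
      · rintro (⟨_, u, v, _, _, h3⟩ | ⟨h2 | h2, _⟩)
        · exact absurd h3.symm (last_ne _)
        · exact ⟨(last_ne _).symm, Or.inr h2.1.symm⟩
        · exact absurd h2.1.symm (last_ne _)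
    | cast b =>
      rw [ext_cast, ext_cast]
      constructor
      · rintro ⟨h1, h2⟩
        left
        refine ⟨h1, a, b, ⟨fun h => h1 (by rw [h]), ?_⟩, rfl, rfl⟩
        rcases h2 with h2 | h2
        · exact Or.inl (Fin.castSucc_injective _ h2)
        · exact Or.inr (Fin.castSucc_injective _ h2)
      · rintro (⟨h1, u, v, ⟨_, h2⟩, h3, h4⟩ | ⟨h2 | h2, _⟩)
        · have h3' := Fin.castSucc_injective _ h3
          have h4' := Fin.castSucc_injective _ h4
          subst h3'
          subst h4'
          refine ⟨h1, ?_⟩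
          rcases h2 with h2 | h2
          · exact Or.inl (by rw [h2])
          · exact Or.inr (by rw [h2])
        · exact absurd h2.2.symm (last_ne _)
        · exact absurd h2.1.symm (last_ne _)

/-- number of descendants -/
noncomputable def sz (π : Fin n → Fin n) (x : Fin n) : ℕ := (sb univ π x).card

lemma sz_ext (π : Fin n → Fin n) (i x : Fin n) :
    sz (ext π i) x.castSucc = sz π x + if i ∈ sb univ π x then 1 else 0 := by
  unfold sz
  have h1 : sb univ (ext π i) x.castSucc = (sb univ π x).map Fin.castSuccEmb ∪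
      (if i ∈ sb univ π x then {Fin.last n} else ∅) := by
    ext v
    rw [mem_union, mem_sb, mem_map]
    induction v using Fin.lastCases with
    | last =>
      constructor
      · rintro ⟨_, j, hj⟩
        right
        rcases j with _ | j
        · exact absurd hj (last_ne _)
        · rw [Function.iterate_succ_apply, ext_last, ext_iter] at hj
          have := Fin.castSucc_injective _ hj
          rw [if_pos (mem_sb.2 ⟨mem_univ _, j, this⟩)]
          simp
      · rintro (⟨w, _, hw⟩ | h)
        · exact absurd hw.symm (last_ne _)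
        · by_cases hi : i ∈ sb univ π x
          · rw [mem_sb] at hi
            obtain ⟨_, j, hj⟩ := hi
            refine ⟨mem_univ _, j + 1, ?_⟩
            rw [Function.iterate_succ_apply, ext_last, ext_iter, hj]
          · rw [if_neg hi] at h
            simp at h
    | cast v =>
      constructor
      · rintro ⟨_, j, hj⟩
        left
        rw [ext_iter] at hj
        exact ⟨v, mem_sb.2 ⟨mem_univ _, j, Fin.castSucc_injective _ hj⟩, rfl⟩
      · rintro (⟨w, hw, hwv⟩ | h)
        · have h2 : w = v := Fin.castSucc_injective _ hwv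
          subst h2
          rw [mem_sb] at hw
          obtain ⟨_, j, hj⟩ := hw
          exact ⟨mem_univ _, j, by rw [ext_iter, hj]⟩
        · by_cases hi : i ∈ sb univ π x
          · rw [if_pos hi, mem_singleton] at h
            exact absurd h.symm (last_ne _)
          · rw [if_neg hi] at h
            simp at h
  rw [h1, card_union_of_disjoint, card_map]
  · congr 1
    split_ifs <;> simp
  · rw [Finset.disjoint_left]
    intro v hv hv'
    rw [mem_map] at hv
    obtain ⟨w, _, hw⟩ := hv
    by_cases hi : i ∈ sb univ π x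
    · rw [if_pos hi, mem_singleton] at hv'
      rw [hv'] at hw
      exact absurd hw.symm (last_ne _)
    · rw [if_neg hi] at hv'
      simp at hv'

lemma sz_last (π : Fin n → Fin n) (i : Fin n) : sz (ext π i) (Fin.last n) = 1 := by
  unfold sz
  rw [card_eq_one]
  refine ⟨Fin.last n, ?_⟩
  ext v
  rw [mem_sb, mem_singleton]
  constructor
  · rintro ⟨_, j, hj⟩
    induction v using Fin.lastCases with
    | last => rfl
    | cast v =>
      rw [ext_iter] at hj
      exact absurd hj.symm (last_ne _)
  · rintro rfl
    exact ⟨mem_univ _, 0, rfl⟩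

variable (h : IsPar (⊤ : SimpleGraph (Fin n)) univ r π)
include h

lemma deg_eq (i : Fin n) : deg (Gp π) i =
    (univ.filter (fun v => v ≠ r ∧ π v = i)).card + if i = r then 0 else 1 := by
  unfold deg
  have h1 : univ.filter (fun v => (Gp π).Adj i v) = (univ.filter (fun v => v ≠ r ∧ π v = i)) ∪
      (if i = r then ∅ else {π i}) := by
    ext v
    rw [mem_union, mem_filter, mem_filter]
    simp only [mem_univ, true_and]
    constructor
    · rintro ⟨h2, h3 | h3⟩
      · by_cases hi : i = r
        · left
          subst hi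
          rw [h.root] at h3
          exact absurd h3 h2
        · right
          rw [if_neg hi, mem_singleton]
          exact h3.symm
      · left
        refine ⟨?_, h3⟩
        rintro rfl
        rw [h.root] at h3
        exact h2 h3.symm
    · rintro (⟨h2, h3⟩ | h2)
      · refine ⟨?_, Or.inr h3⟩
        intro h4
        rw [← h4] at h3
        rw [← h4] at h2
        exact par_ne h h2 h3.symm
      · by_cases hi : i = r
        · rw [if_pos hi] at h2
          simp at h2
        · rw [if_neg hi, mem_singleton] at h2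
          rw [h2]
          exact ⟨par_ne h hi, Or.inl rfl⟩
  rw [h1, card_union_of_disjoint]
  · congr 1
    split_ifs <;> simp
  · rw [Finset.disjoint_left]
    intro v hv hv'
    rw [mem_filter] at hv
    by_cases hi : i = r
    · rw [if_pos hi] at hv'
      simp at hv'
    · rw [if_neg hi, mem_singleton] at hv'
      obtain ⟨_, _, hv2⟩ := hv
      rw [hv'] at hv2
      have h3 : π^[1 + 1] i = i := hv2
      exact hi (periodic_root h.root (par_reach h i) h3)

/-- the sum of the degrees over a set -/
lemma sum_deg_set (A : Finset (Fin n)) : ∑ i ∈ A, deg (Gp π) i =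
    (univ.filter (fun v => v ≠ r ∧ π v ∈ A)).card + (A.erase r).card := by
  have h1 : ∀ i ∈ A, deg (Gp π) i =
    (univ.filter (fun v => v ≠ r ∧ π v = i)).card + if i = r then 0 else 1 :=
    fun i _ => deg_eq h i
  rw [sum_congr rfl h1, sum_add_distrib]
  congr 1
  · rw [← card_biUnion]
    · congr 1
      ext v
      rw [mem_biUnion, mem_filter]
      constructor
      · rintro ⟨i, hi, hv⟩
        rw [mem_filter] at hv
        obtain ⟨_, h2, h3⟩ := hv
        exact ⟨mem_univ _, h2, by rw [h3]; exact hi⟩
      · rintro ⟨_, h2, h3⟩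
        exact ⟨π v, h3, mem_filter.2 ⟨mem_univ _, h2, rfl⟩⟩
    · intro x _ y _ hxy
      simp only [Finset.disjoint_left]
      intro v hv hv'
      rw [mem_filter] at hv hv'
      exact hxy (hv.2.2.symm.trans hv'.2.2)
  · rw [← filter_ne', card_filter]
    apply sum_congr rfl
    intro i _
    by_cases hi : i = r <;> simp [hi]

lemma sum_deg : ∑ i : Fin n, deg (Gp π) i = 2 * (n - 1) := by
  rw [sum_deg_set h univ]
  have h1 : univ.filter (fun v => v ≠ r ∧ π v ∈ univ) = univ.erase r := by
    ext v; simp
  rw [h1, card_erase_of_mem (mem_univ _), card_univ, Fintype.card_fin]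
  ring

lemma sum_deg_sb {x : Fin n} (hx : x ≠ r) :
    ∑ i ∈ sb univ π x, deg (Gp π) i + 1 = 2 * sz π x := by
  rw [sum_deg_set h]
  have h1 : univ.filter (fun v => v ≠ r ∧ π v ∈ sb univ π x) = (sb univ π x).erase x := by
    ext v
    rw [mem_filter, mem_erase]
    constructor
    · rintro ⟨_, _, h3⟩
      refine ⟨?_, mem_of_step h h3⟩
      rintro rfl
      exact parent_notMem h hx h3
    · rintro ⟨h2, h3⟩
      refine ⟨mem_univ _, ?_, step_mem h h3 h2⟩
      rintro rfl
      exact root_notMem h hx h3
  have h2 : (sb univ π x).erase r = sb univ π x := erase_eq_of_notMem (root_notMem h hx)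
  rw [h1, h2, card_erase_of_mem (self_mem h x)]
  have h3 : 0 < (sb univ π x).card := card_pos.2 ⟨x, self_mem h x⟩
  unfold sz
  omega

lemma sz_pos (x : Fin n) : 1 ≤ sz π x := card_pos.2 ⟨x, self_mem h x⟩

lemma sz_lt {x : Fin n} (hx : x ≠ r) : sz π x + 1 ≤ n := by
  have h1 := card_lt_univ_of_notMem (root_notMem h hx)
  rw [Fintype.card_fin] at h1
  unfold sz
  omega

end ext

/-- the one-step expectation -/
noncomputable def E1 {n : ℕ} (π : Fin n → Fin n) (F : Fin n → ℝ) : ℝ :=
  ∑ i : Fin n, (deg (Gp π) i : ℝ) / (2 * ((n : ℝ) - 1)) * F i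

section E1
variable {n : ℕ} {π : Fin n → Fin n} {r : Fin n}
  (h : IsPar (⊤ : SimpleGraph (Fin n)) univ r π) (hn : 2 ≤ n)
include h hn

lemma E1_const (c : ℝ) : E1 π (fun _ => c) = c := by
  unfold E1
  have hn0 : (0:ℝ) < (n:ℝ) - 1 := by
    have : (2:ℝ) ≤ n := by exact_mod_cast hn
    linarith
  rw [← sum_mul, ← sum_div]
  have h1 : ∑ i : Fin n, (deg (Gp π) i : ℝ) = 2 * ((n:ℝ) - 1) := by
    have := sum_deg h
    have h2 : ((∑ i : Fin n, deg (Gp π) i : ℕ) : ℝ) = ((2 * (n - 1) : ℕ) : ℝ) := by
      exact_mod_cast this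
    rw [Nat.cast_sum, Nat.cast_mul, Nat.cast_sub (by omega)] at h2
    push_cast at h2
    exact h2
  rw [h1, div_self (by positivity), one_mul]

omit h in
lemma E1_mono {F F' : Fin n → ℝ} (hF : ∀ i, F i ≤ F' i) : E1 π F ≤ E1 π F' := by
  unfold E1
  have hn0 : (0:ℝ) < (n:ℝ) - 1 := by
    have : (2:ℝ) ≤ n := by exact_mod_cast hn
    linarith
  apply sum_le_sum
  intro i _
  exact mul_le_mul_of_nonneg_left (hF i) (by positivity)

omit h hn in
lemma E1_add (F F' : Fin n → ℝ) : E1 π (fun i => F i + F' i) = E1 π F + E1 π F' := by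
  unfold E1
  rw [← sum_add_distrib]
  apply sum_congr rfl
  intro i _
  ring

omit h hn in
lemma E1_mul (c : ℝ) (F : Fin n → ℝ) : E1 π (fun i => c * F i) = c * E1 π F := by
  unfold E1
  rw [mul_sum]
  apply sum_congr rfl
  intro i _
  ring

omit h hn in
lemma E1_sum {ι : Type} (A : Finset ι) (F : ι → Fin n → ℝ) :
    E1 π (fun i => ∑ a ∈ A, F a i) = ∑ a ∈ A, E1 π (F a) := by
  unfold E1
  simp_rw [mul_sum]
  rw [sum_comm]

/-- functions of the size of a branch -/
lemma E1_size {x : Fin n} (hx : x ≠ r) (g : ℕ → ℝ) :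
    E1 π (fun i => g (sz (ext π i) x.castSucc)) =
      (2 * (sz π x : ℝ) - 1) / (2 * ((n:ℝ) - 1)) * (g (sz π x + 1) - g (sz π x)) +
        g (sz π x) := by
  have e1 : (fun i => g (sz (ext π i) x.castSucc)) = fun i => g (sz π x) +
      (if i ∈ sb univ π x then (g (sz π x + 1) - g (sz π x)) else 0) := by
    funext i
    rw [sz_ext]
    split_ifs <;> simp
  rw [e1, E1_add (fun _ => g (sz π x)), E1_const h hn, add_comm]
  congr 1
  unfold E1
  have e2 : ∀ i ∈ (univ : Finset (Fin n)), (deg (Gp π) i : ℝ) / (2 * ((n : ℝ) - 1)) *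
      (if i ∈ sb univ π x then (g (sz π x + 1) - g (sz π x)) else 0) =
      if i ∈ sb univ π x then (deg (Gp π) i : ℝ) / (2 * ((n : ℝ) - 1)) *
        (g (sz π x + 1) - g (sz π x)) else 0 := by
    intro i _
    split_ifs <;> simp
  rw [sum_congr rfl e2, sum_ite_mem, univ_inter, ← sum_mul, ← sum_div]
  congr 2
  have h1 := sum_deg_sb h hx
  have h2 : ((∑ i ∈ sb univ π x, deg (Gp π) i + 1 : ℕ) : ℝ) = ((2 * sz π x : ℕ) : ℝ) := by
    exact_mod_cast h1
  push_cast at h2
  linarith

end E1

end Pool.Agent.Q287.RS
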