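import Pool.Agent.Q287.RS.PA

/-! Random seed trees: concentration of the statistic along the preferential attachment process. -/

set_option linter.unusedSectionVars false

namespace Pool.Agent.Q287.RS

open Finset Pool.Agent.W151.TreeNum Pool.Agent.W151.TreeRec

attribute [local instance] Classical.propDecidable

/-- the expectation on the level of parent functions -/
noncomputable def pE {k : ℕ} (π0 : Fin k → Fin k) :
    (m : ℕ) → ((Fin (k + m) → Fin (k + m)) → ℝ) → ℝ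
  | 0, F => F π0
  | m + 1, F => pE π0 m fun π => E1 π fun i => F (ext π i)

lemma paE_eq {k : ℕ} (π0 : Fin k → Fin k) : ∀ (m : ℕ) (F : SimpleGraph (Fin (k + m)) → ℝ),
    paE (Gp π0) m F = pE π0 m (fun π => F (Gp π)) := by
  intro m
  induction m with
  | zero => intro F; rfl
  | succ m ih =>
    intro F
    rw [paE, ih, pE]
    congr 1
    funext π
    unfold E1
    apply sum_congr rfl
    intro i _
    show _ * F (attach (Gp π) i) = _ * F (Gp (ext π i))
    rw [← Gp_ext π i]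

/-- reachable parent functions -/
structure Inv {k : ℕ} (π0 : Fin k → Fin k) (y : Fin k) (m : ℕ)
    (π : Fin (k + m) → Fin (k + m)) : Prop where
  par : IsPar (⊤ : SimpleGraph (Fin (k + m))) univ (Fin.castAdd m y) π
  old : ∀ x, π (Fin.castAdd m x) = Fin.castAdd m (π0 x)

section
variable {k : ℕ} {π0 : Fin k → Fin k} {y : Fin k}

lemma castAdd_succ (m : ℕ) (x : Fin k) : Fin.castAdd (m + 1) x = (Fin.castAdd m x).castSucc := rfl

lemma Inv_zero (h : IsPar (⊤ : SimpleGraph (Fin k)) univ y π0) : Inv π0 y 0 π0 :=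
  ⟨h, fun _ => rfl⟩

lemma Inv_ext {m : ℕ} {π : Fin (k + m) → Fin (k + m)} (h : Inv π0 y m π) (i : Fin (k + m)) :
    Inv π0 y (m + 1) (ext π i) := by
  refine ⟨ext_par h.par i, fun x => ?_⟩
  rw [castAdd_succ]
  show ext π i (Fin.castAdd m x).castSucc = _
  rw [ext_cast, h.old]
  rfl

lemma pE_mono (hk : 2 ≤ k) (h : IsPar (⊤ : SimpleGraph (Fin k)) univ y π0) :
    ∀ (m : ℕ) (F F' : (Fin (k + m) → Fin (k + m)) → ℝ), (∀ π, Inv π0 y m π → F π ≤ F' π) →
      pE π0 m F ≤ pE π0 m F' := by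
  intro m
  induction m with
  | zero => intro F F' hF; exact hF _ (Inv_zero h)
  | succ m ih =>
    intro F F' hF
    apply ih
    intro π hπ
    exact E1_mono (by omega) fun i => hF _ (Inv_ext hπ i)

lemma pE_const (hk : 2 ≤ k) (h : IsPar (⊤ : SimpleGraph (Fin k)) univ y π0) (c : ℝ) :
    ∀ m, pE π0 m (fun _ => c) = c := by
  intro m
  induction m with
  | zero => rfl
  | succ m ih =>
    rw [pE]
    apply le_antisymm
    · refine le_trans (pE_mono hk h m _ (fun _ => c) fun π hπ => ?_) (le_of_eq ih)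
      exact le_of_eq (E1_const hπ.par (by omega) c)
    · refine le_trans (le_of_eq ih.symm) (pE_mono hk h m (fun _ => c) _ fun π hπ => ?_)
      exact le_of_eq (E1_const hπ.par (by omega) c).symm

lemma pE_mul (c : ℝ) : ∀ (m : ℕ) (F : (Fin (k + m) → Fin (k + m)) → ℝ),
    pE π0 m (fun π => c * F π) = c * pE π0 m F := by
  intro m
  induction m with
  | zero => intro F; rfl
  | succ m ih =>
    intro F
    rw [pE, pE, ← ih]
    congr 1
    funext π
    rw [E1_mul]

end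

/-- relative size -/
noncomputable def Mx (s : ℕ) (N : ℝ) : ℝ := (2 * s - 1) / (2 * N)

/-- second moment -/
noncomputable def Qx (s : ℕ) (N : ℝ) : ℝ := (2 * s - 1) * (2 * s + 1) / (4 * N * (N + 1))

lemma Mx_step (s : ℕ) {N : ℝ} (hN : 0 < N) :
    (2 * (s : ℝ) - 1) / (2 * N) * (Mx (s + 1) (N + 1) - Mx s (N + 1)) + Mx s (N + 1) =
      Mx s N := by
  unfold Mx
  have : N + 1 ≠ 0 := by positivity
  push_cast
  field_simp
  ring

lemma Qx_step (s : ℕ) {N : ℝ} (hN : 0 < N) :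
    (2 * (s : ℝ) - 1) / (2 * N) * (Qx (s + 1) (N + 1) - Qx s (N + 1)) + Qx s (N + 1) =
      Qx s N := by
  unfold Qx
  have : N + 1 ≠ 0 := by positivity
  have : N + 1 + 1 ≠ 0 := by positivity
  push_cast
  field_simp
  ring

lemma Qx_ge {s : ℕ} {N : ℝ} (hN : 0 < N) (hs : 1 ≤ s) (hsN : (s:ℝ) ≤ N) :
    (Mx s N) ^ 2 ≤ Qx s N := by
  unfold Mx Qx
  have hs1 : (1:ℝ) ≤ s := by exact_mod_cast hs
  rw [div_pow, div_le_div_iff₀ (by positivity) (by positivity)]
  have h1 : 0 ≤ (2 * (s:ℝ) - 1) * N * (2 * N - 2 * s + 1) :=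
    mul_nonneg (mul_nonneg (by linarith) hN.le) (by linarith)
  nlinarith

section
variable {k : ℕ} (π0 : Fin k → Fin k) (y : Fin k)

/-- the potential -/
noncomputable def Wt (m : ℕ) (π : Fin (k + m) → Fin (k + m)) : ℝ :=
  (∑ x : Fin k, if x ≠ y ∧ π0 x = y then
    (Qx (sz π (Fin.castAdd m x)) (((k + m : ℕ) : ℝ) - 1) +
      (-(2 * Mx (sz π0 x) ((k : ℝ) - 1))) * Mx (sz π (Fin.castAdd m x)) (((k + m : ℕ) : ℝ) - 1)) +
      (Mx (sz π0 x) ((k : ℝ) - 1)) ^ 2 else 0) +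
  (∑ z : Fin (k + m), if k ≤ z.val ∧ π z = Fin.castAdd m y then
    Qx (sz π z) (((k + m : ℕ) : ℝ) - 1) else 0) +
  3 / 4 / (((k + m : ℕ) : ℝ) - 1 + 1)

variable {π0 y}

lemma Wt_step (hk : 2 ≤ k) {m : ℕ} {π : Fin (k + m) → Fin (k + m)} (h : Inv π0 y m π) :
    E1 π (fun i => Wt π0 y (m + 1) (ext π i)) ≤ Wt π0 y m π := by
  have hn : 2 ≤ k + m := by omega
  have hN : (0:ℝ) < ((k + m : ℕ) : ℝ) - 1 := by
    have : (2:ℝ) ≤ ((k + m : ℕ) : ℝ) := by exact_mod_cast hn
    linarith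
  set N : ℝ := ((k + m : ℕ) : ℝ) - 1 with hNdef
  have hN1 : ((k + (m + 1) : ℕ) : ℝ) - 1 = N + 1 := by rw [hNdef]; push_cast; ring
  unfold Wt
  rw [hN1]
  rw [E1_add (fun i => _ + _) (fun _ => 3 / 4 / (N + 1 + 1)), E1_const h.par hn,
    E1_add (fun i => ∑ x : Fin k, _) (fun i => ∑ z : Fin (k + (m + 1)), _)]
  -- the first sum
  have s1 : E1 π (fun i => ∑ x : Fin k, if x ≠ y ∧ π0 x = y then
      (Qx (sz (ext π i) (Fin.castAdd (m + 1) x)) (N + 1) +
      (-(2 * Mx (sz π0 x) ((k : ℝ) - 1))) * Mx (sz (ext π i) (Fin.castAdd (m + 1) x)) (N + 1)) +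
      (Mx (sz π0 x) ((k : ℝ) - 1)) ^ 2 else 0) = ∑ x : Fin k, if x ≠ y ∧ π0 x = y then
      (Qx (sz π (Fin.castAdd m x)) N +
      (-(2 * Mx (sz π0 x) ((k : ℝ) - 1))) * Mx (sz π (Fin.castAdd m x)) N) +
      (Mx (sz π0 x) ((k : ℝ) - 1)) ^ 2 else 0 := by
    rw [E1_sum univ (fun x i => if x ≠ y ∧ π0 x = y then
      (Qx (sz (ext π i) (Fin.castAdd (m + 1) x)) (N + 1) +
      (-(2 * Mx (sz π0 x) ((k : ℝ) - 1))) * Mx (sz (ext π i) (Fin.castAdd (m + 1) x)) (N + 1)) +
      (Mx (sz π0 x) ((k : ℝ) - 1)) ^ 2 else 0)]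
    apply sum_congr rfl
    intro x _
    by_cases hx : x ≠ y ∧ π0 x = y
    · simp only [if_pos hx]
      have hx' : Fin.castAdd m x ≠ Fin.castAdd m y := by
        intro he
        exact hx.1 (Fin.castAdd_injective _ _ he)
      rw [E1_add (fun i => Qx (sz (ext π i) (Fin.castAdd (m + 1) x)) (N + 1) +
        (-(2 * Mx (sz π0 x) ((k : ℝ) - 1))) * Mx (sz (ext π i) (Fin.castAdd (m + 1) x)) (N + 1))
        (fun _ => (Mx (sz π0 x) ((k : ℝ) - 1)) ^ 2), E1_const h.par hn,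
        E1_add (fun i => Qx (sz (ext π i) (Fin.castAdd (m + 1) x)) (N + 1)),
        E1_mul (-(2 * Mx (sz π0 x) ((k : ℝ) - 1)))]
      have e1 := E1_size h.par hn hx' (fun s => Qx s (N + 1))
      have e2 := E1_size h.par hn hx' (fun s => Mx s (N + 1))
      simp only [← hNdef] at e1 e2
      rw [Qx_step _ hN] at e1
      rw [Mx_step _ hN] at e2
      rw [castAdd_succ]
      erw [e1, e2]
    · simp only [if_neg hx]
      exact E1_const h.par hn 0
  -- the second sum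
  have s2 : E1 π (fun i => ∑ z : Fin (k + (m + 1)),
      if k ≤ z.val ∧ ext π i z = Fin.castAdd (m + 1) y then Qx (sz (ext π i) z) (N + 1) else 0) ≤
      (∑ z : Fin (k + m), if k ≤ z.val ∧ π z = Fin.castAdd m y then Qx (sz π z) N else 0) +
        Qx 1 (N + 1) := by
    have e0 : ∀ i, (∑ z : Fin (k + (m + 1)),
      if k ≤ z.val ∧ ext π i z = Fin.castAdd (m + 1) y then Qx (sz (ext π i) z) (N + 1) else 0) ≤
      (∑ z : Fin (k + m), if k ≤ z.val ∧ π z = Fin.castAdd m y then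
        Qx (sz (ext π i) z.castSucc) (N + 1) else 0) + Qx 1 (N + 1) := by
      intro i
      have e1 := Fin.sum_univ_castSucc (fun z : Fin (k + m + 1) =>
        if k ≤ z.val ∧ ext π i z = Fin.castAdd (m + 1) y then Qx (sz (ext π i) z) (N + 1) else 0)
      refine (le_of_eq e1).trans ?_
      apply add_le_add
      · apply le_of_eq
        apply sum_congr rfl
        intro z _
        have : (k ≤ (z.castSucc).val ∧ ext π i z.castSucc = Fin.castAdd (m + 1) y) ↔
            (k ≤ z.val ∧ π z = Fin.castAdd m y) := by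
          rw [ext_cast, castAdd_succ]
          constructor
          · rintro ⟨h1, h2⟩
            exact ⟨h1, Fin.castSucc_injective _ h2⟩
          · rintro ⟨h1, h2⟩
            exact ⟨h1, by rw [h2]⟩
        simp only [this]
      · have e2 : 0 ≤ Qx 1 (N + 1) := by unfold Qx; norm_num; positivity
        split_ifs with hc
        · rw [sz_last]
        · exact e2
    refine (E1_mono hn e0).trans ?_
    rw [E1_add (fun i => ∑ z : Fin (k + m), _) (fun _ => Qx 1 (N + 1)), E1_const h.par hn,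
      E1_sum univ (fun z i => if k ≤ z.val ∧ π z = Fin.castAdd m y then
        Qx (sz (ext π i) z.castSucc) (N + 1) else 0)]
    apply add_le_add _ le_rfl
    apply le_of_eq
    apply sum_congr rfl
    intro z _
    by_cases hz : k ≤ z.val ∧ π z = Fin.castAdd m y
    · simp only [if_pos hz]
      have hz' : z ≠ Fin.castAdd m y := by
        intro he
        have h1 : z.val = y.val := by rw [he]; rfl
        have h2 := y.2
        omega
      have e1 := E1_size h.par hn hz' (fun s => Qx s (N + 1))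
      simp only [← hNdef] at e1
      rw [Qx_step _ hN] at e1
      exact e1
    · simp only [if_neg hz]
      exact E1_const h.par hn 0
  rw [s1]
  have s3 : Qx 1 (N + 1) + 3 / 4 / (N + 1 + 1) = 3 / 4 / (N + 1) := by
    unfold Qx
    have : N + 1 ≠ 0 := by positivity
    have : N + 1 + 1 ≠ 0 := by positivity
    field_simp
    push_cast
    ring
  linarith

lemma pE_Wt (hk : 2 ≤ k) (h : IsPar (⊤ : SimpleGraph (Fin k)) univ y π0) :
    ∀ m, pE π0 m (Wt π0 y m) ≤ Wt π0 y 0 π0 := by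
  intro m
  induction m with
  | zero => exact le_rfl
  | succ m ih =>
    rw [pE]
    exact (pE_mono hk h m _ _ fun π hπ => Wt_step hk hπ).trans ih

lemma Wt_zero (hk : 2 ≤ k) (h : IsPar (⊤ : SimpleGraph (Fin k)) univ y π0) :
    Wt π0 y 0 π0 ≤ 2 / k := by
  have hkr : (2:ℝ) ≤ k := by exact_mod_cast hk
  set N : ℝ := (k:ℝ) - 1 with hN
  have hN0 : 0 < N := by linarith
  unfold Wt
  have e0 : (((k + 0 : ℕ) : ℝ)) - 1 = N := by rw [hN]; simp
  rw [e0]
  have s2 : (∑ z : Fin (k + 0), if k ≤ z.val ∧ π0 z = Fin.castAdd 0 y then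
      Qx (sz π0 z) N else 0) = 0 := by
    apply sum_eq_zero
    intro z _
    have := z.2
    rw [if_neg (by omega)]
  have s1 : (∑ x : Fin k, if x ≠ y ∧ π0 x = y then
    (Qx (sz π0 (Fin.castAdd 0 x)) N +
      (-(2 * Mx (sz π0 x) N)) * Mx (sz π0 (Fin.castAdd 0 x)) N) +
      (Mx (sz π0 x) N) ^ 2 else 0) ≤ 1 / (N + 1) := by
    have e1 : ∀ x ∈ (univ : Finset (Fin k)), (if x ≠ y ∧ π0 x = y then
      (Qx (sz π0 (Fin.castAdd 0 x)) N +
      (-(2 * Mx (sz π0 x) N)) * Mx (sz π0 (Fin.castAdd 0 x)) N) +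
      (Mx (sz π0 x) N) ^ 2 else 0) ≤
        (if x ≠ y ∧ π0 x = y then (sz π0 x : ℝ) else 0) * (1 / (N * (N + 1))) := by
      intro x _
      split_ifs with hx
      · have e2 : Fin.castAdd 0 x = x := rfl
        rw [e2]
        have h1 : (1:ℝ) ≤ sz π0 x := by exact_mod_cast sz_pos h x
        unfold Qx Mx
        have h2 : (2 * (sz π0 x : ℝ) - 1) * (2 * sz π0 x + 1) / (4 * N * (N + 1)) +
          -(2 * ((2 * (sz π0 x : ℝ) - 1) / (2 * N))) * ((2 * (sz π0 x : ℝ) - 1) / (2 * N)) +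
          ((2 * (sz π0 x : ℝ) - 1) / (2 * N)) ^ 2 =
          (2 * (sz π0 x : ℝ) - 1) * (2 * N - 2 * sz π0 x + 1) / (4 * N ^ 2 * (N + 1)) := by
          have : N + 1 ≠ 0 := by positivity
          field_simp
          ring
        rw [h2, mul_one_div, div_le_div_iff₀ (by positivity) (by positivity)]
        have h3 : (2 * (sz π0 x : ℝ) - 1) * (2 * N - 2 * sz π0 x + 1) ≤
            (sz π0 x : ℝ) * (4 * N) := by
          nlinarith
        calc (2 * (sz π0 x : ℝ) - 1) * (2 * N - 2 * sz π0 x + 1) * (N * (N + 1)) ≤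
            (sz π0 x : ℝ) * (4 * N) * (N * (N + 1)) :=
              mul_le_mul_of_nonneg_right h3 (by positivity)
          _ = _ := by ring
      · simp
    refine (sum_le_sum e1).trans ?_
    rw [← sum_mul]
    have e2 : ∑ x : Fin k, (if x ≠ y ∧ π0 x = y then (sz π0 x : ℝ) else 0) ≤ N := by
      rw [← sum_filter]
      have e3 : ∑ x ∈ (univ : Finset (Fin k)).filter (fun x => x ≠ y ∧ π0 x = y), sz π0 x ≤
          k - 1 := by
        have e4 : ∑ x ∈ (univ : Finset (Fin k)).filter (fun x => x ≠ y ∧ π0 x = y), sz π0 x =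
            (((univ : Finset (Fin k)).filter (fun x => x ≠ y ∧ π0 x = y)).biUnion
              (fun x => sb univ π0 x)).card := by
          rw [card_biUnion]
          · rfl
          · intro x hx z hz hxz
            rw [mem_coe, mem_filter] at hx hz
            exact sb_disj h hx.2.1 hz.2.1 hx.2.2 hz.2.2 hxz
        rw [e4]
        have e5 : y ∉ ((univ : Finset (Fin k)).filter (fun x => x ≠ y ∧ π0 x = y)).biUnion
              (fun x => sb univ π0 x) := by
          rw [mem_biUnion]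
          rintro ⟨x, hx, hy⟩
          rw [mem_filter] at hx
          exact root_notMem h hx.2.1 hy
        have e6 := card_lt_univ_of_notMem e5
        rw [Fintype.card_fin] at e6
        omega
      have e7 : ((∑ x ∈ (univ : Finset (Fin k)).filter (fun x => x ≠ y ∧ π0 x = y), sz π0 x : ℕ)
          : ℝ) ≤ ((k - 1 : ℕ) : ℝ) := by exact_mod_cast e3
      rw [Nat.cast_sub (by omega)] at e7
      push_cast at e7
      rw [hN]
      exact e7
    calc (∑ x : Fin k, (if x ≠ y ∧ π0 x = y then (sz π0 x : ℝ) else 0)) * (1 / (N * (N + 1))) ≤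
        N * (1 / (N * (N + 1))) := mul_le_mul_of_nonneg_right e2 (by positivity)
      _ = 1 / (N + 1) := by field_simp
  rw [s2]
  have e3 : N + 1 = k := by rw [hN]; ring
  rw [e3] at s1 ⊢
  have e4 : (2:ℝ) / k = 1 / k + 3 / 4 / k + 1 / 4 / k := by ring
  rw [e4]
  have : (0:ℝ) ≤ 1 / 4 / k := by positivity
  linarith

/-- bad parent functions -/
def Bad (π0 : Fin k → Fin k) (y : Fin k) (ε : ℝ) (m : ℕ) (π : Fin (k + m) → Fin (k + m)) : Prop :=
  (∃ x : Fin k, (x ≠ y ∧ π0 x = y) ∧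
    ε < |Mx (sz π (Fin.castAdd m x)) (((k + m : ℕ) : ℝ) - 1) - Mx (sz π0 x) ((k : ℝ) - 1)|) ∨
  (∃ z : Fin (k + m), (k ≤ z.val ∧ π z = Fin.castAdd m y) ∧
    ε < Mx (sz π z) (((k + m : ℕ) : ℝ) - 1))

lemma Wt_bad (hk : 2 ≤ k) {m : ℕ} {π : Fin (k + m) → Fin (k + m)} (h : Inv π0 y m π) {ε : ℝ}
    (hε : 0 < ε) : ε ^ 2 * (if Bad π0 y ε m π then 1 else 0) ≤ Wt π0 y m π := by
  have hn : 2 ≤ k + m := by omega
  have hN : (0:ℝ) < ((k + m : ℕ) : ℝ) - 1 := by
    have : (2:ℝ) ≤ ((k + m : ℕ) : ℝ) := by exact_mod_cast hn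
    linarith
  unfold Wt Bad
  set N : ℝ := ((k + m : ℕ) : ℝ) - 1 with hNdef
  have hsz : ∀ x : Fin (k + m), x ≠ Fin.castAdd m y → (Mx (sz π x) N) ^ 2 ≤ Qx (sz π x) N := by
    intro x hx
    apply Qx_ge hN (sz_pos h.par x)
    have h1 := sz_lt h.par hx
    have h2 : ((sz π x + 1 : ℕ) : ℝ) ≤ ((k + m : ℕ) : ℝ) := by exact_mod_cast h1
    push_cast at h2
    rw [hNdef]
    push_cast
    linarith
  have t1 : ∀ x : Fin k, (x ≠ y ∧ π0 x = y) →
      (Mx (sz π (Fin.castAdd m x)) N - Mx (sz π0 x) ((k : ℝ) - 1)) ^ 2 ≤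
      (Qx (sz π (Fin.castAdd m x)) N +
      (-(2 * Mx (sz π0 x) ((k : ℝ) - 1))) * Mx (sz π (Fin.castAdd m x)) N) +
      (Mx (sz π0 x) ((k : ℝ) - 1)) ^ 2 := by
    intro x hx
    have hx' : Fin.castAdd m x ≠ Fin.castAdd m y := by
      intro he
      exact hx.1 (Fin.castAdd_injective _ _ he)
    have := hsz _ hx'
    nlinarith
  have t2 : ∀ z : Fin (k + m), (k ≤ z.val ∧ π z = Fin.castAdd m y) →
      (Mx (sz π z) N) ^ 2 ≤ Qx (sz π z) N := by
    intro z hz
    apply hsz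
    intro he
    have h1 : z.val = y.val := by rw [he]; rfl
    have h2 := y.2
    omega
  have n1 : ∀ x ∈ (univ : Finset (Fin k)), 0 ≤ if x ≠ y ∧ π0 x = y then
      (Qx (sz π (Fin.castAdd m x)) N +
      (-(2 * Mx (sz π0 x) ((k : ℝ) - 1))) * Mx (sz π (Fin.castAdd m x)) N) +
      (Mx (sz π0 x) ((k : ℝ) - 1)) ^ 2 else 0 := by
    intro x _
    split_ifs with hx
    · exact (sq_nonneg _).trans (t1 x hx)
    · exact le_rfl
  have n2 : ∀ z ∈ (univ : Finset (Fin (k + m))), 0 ≤ if k ≤ z.val ∧ π z = Fin.castAdd m y then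
      Qx (sz π z) N else 0 := by
    intro z _
    split_ifs with hz
    · exact (sq_nonneg _).trans (t2 z hz)
    · exact le_rfl
  have n3 : 0 ≤ 3 / 4 / (N + 1) := by positivity
  have S1 := sum_nonneg n1
  have S2 := sum_nonneg n2
  split_ifs with hb
  · rw [mul_one]
    rcases hb with ⟨x, hx, hx2⟩ | ⟨z, hz, hz2⟩
    · have h1 := single_le_sum n1 (mem_univ x)
      simp only [if_pos hx] at h1
      have h2 := t1 x hx
      have h3 : ε ^ 2 ≤ (Mx (sz π (Fin.castAdd m x)) N - Mx (sz π0 x) ((k : ℝ) - 1)) ^ 2 := by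
        rw [← sq_abs (Mx (sz π (Fin.castAdd m x)) N - Mx (sz π0 x) ((k : ℝ) - 1))]
        exact pow_le_pow_left₀ hε.le hx2.le 2
      linarith
    · have h1 := single_le_sum n2 (mem_univ z)
      simp only [if_pos hz] at h1
      have h2 := t2 z hz
      have h3 : ε ^ 2 ≤ (Mx (sz π z) N) ^ 2 := pow_le_pow_left₀ hε.le hz2.le 2
      linarith
  · rw [mul_zero]
    linarith

theorem prob_bad (hk : 2 ≤ k) (h : IsPar (⊤ : SimpleGraph (Fin k)) univ y π0) {ε : ℝ}
    (hε : 0 < ε) (m : ℕ) :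
    pE π0 m (fun π => if Bad π0 y ε m π then 1 else 0) ≤ 2 / (k * ε ^ 2) := by
  have h1 : ε ^ 2 * pE π0 m (fun π => if Bad π0 y ε m π then 1 else 0) ≤ 2 / k := by
    rw [← pE_mul]
    exact (pE_mono hk h m _ _ fun π hπ => Wt_bad hk hπ hε).trans
      ((pE_Wt hk h m).trans (Wt_zero hk h))
  have hk0 : (0:ℝ) < k := by positivity
  have hε2 : 0 < ε ^ 2 := by positivity
  rw [le_div_iff₀ (by positivity)]
  rw [le_div_iff₀ hk0] at h1
  calc _ = ε ^ 2 * pE π0 m (fun π => if Bad π0 y ε m π then 1 else 0) * k := by ring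
    _ ≤ 2 := h1

/-- comparison of the two relative sizes -/
lemma Mx_compare {s n : ℕ} (hn : 2 ≤ n) (hs : s ≤ n) :
    (s:ℝ) / n ≤ Mx s ((n:ℝ) - 1) + 1 / (2 * ((n:ℝ) - 1)) ∧
      Mx s ((n:ℝ) - 1) ≤ (s:ℝ) / n + 1 / (2 * ((n:ℝ) - 1)) := by
  have hnr : (2:ℝ) ≤ n := by exact_mod_cast hn
  have hsr : (s:ℝ) ≤ n := by exact_mod_cast hs
  have hs0 : (0:ℝ) ≤ s := Nat.cast_nonneg _
  have h1 : (0:ℝ) < (n:ℝ) - 1 := by linarith
  have h2 : (0:ℝ) < n := by linarith
  unfold Mx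
  constructor
  · rw [← add_div, div_le_div_iff₀ h2 (by positivity)]
    nlinarith
  · rw [div_add_div _ _ h2.ne' (by positivity), div_le_div_iff₀ (by positivity) (by positivity)]
    have h3 : (0:ℝ) ≤ 2 * ((n:ℝ) - 1) := by linarith
    have h4 : (2 * (s:ℝ) - 1) * n ≤ s * (2 * ((n:ℝ) - 1)) + n * 1 := by nlinarith
    calc (2 * (s:ℝ) - 1) * (n * (2 * ((n:ℝ) - 1))) = ((2 * (s:ℝ) - 1) * n) * (2 * ((n:ℝ) - 1)) := by
          ring
      _ ≤ _ := mul_le_mul_of_nonneg_right h4 h3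

/-- the statistic on good parent functions -/
theorem Mst_good (hk : 2 ≤ k) {m : ℕ} {π : Fin (k + m) → Fin (k + m)} (h : Inv π0 y m π) {ε : ℝ}
    (h0 : IsPar (⊤ : SimpleGraph (Fin k)) univ y π0) (hb : ¬ Bad π0 y ε m π) {x : Fin k}
    (hε : 0 < ε) {a0 : ℕ} (hx : x ≠ y) (hpx : π0 x = y) (hxa : sz π0 x = a0)
    (hsm : ∀ z, z ≠ y → π0 z = y → sz π0 z ≤ a0) (hhalf : 2 * a0 ≤ k) :
    |(Mst (Gp π) : ℝ) / ((k + m : ℕ) : ℝ) - a0 / k| ≤ ε + 1 / ((k:ℝ) - 1) := by
  have hn : 2 ≤ k + m := by omega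
  have hkr : (2:ℝ) ≤ k := by exact_mod_cast hk
  have hk1 : (0:ℝ) < (k:ℝ) - 1 := by linarith
  have hk0 : (0:ℝ) < k := by linarith
  have hnk : (k:ℝ) ≤ ((k + m : ℕ) : ℝ) := by
    have : k ≤ k + m := by omega
    exact_mod_cast this
  have hn1 : (0:ℝ) < ((k + m : ℕ) : ℝ) - 1 := by linarith
  have hn0 : (0:ℝ) < ((k + m : ℕ) : ℝ) := by linarith
  have hinv : 1 / (2 * (((k + m : ℕ) : ℝ) - 1)) ≤ 1 / (2 * ((k:ℝ) - 1)) :=
    one_div_le_one_div_of_le (by positivity) (by linarith)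
  have hsplit : 1 / ((k:ℝ) - 1) = 1 / (2 * ((k:ℝ) - 1)) + 1 / (2 * ((k:ℝ) - 1)) := by
    field_simp; ring
  unfold Bad at hb
  push Not at hb
  obtain ⟨hb1, hb2⟩ := hb
  have ha0k : a0 ≤ k := by omega
  have hp1 := (Mx_compare (s := a0) hk ha0k).2
  have hp2 := (Mx_compare (s := a0) hk ha0k).1
  have hpmono : ∀ s : ℕ, s ≤ a0 → Mx s ((k:ℝ) - 1) ≤ Mx a0 ((k:ℝ) - 1) := by
    intro s hs
    unfold Mx
    apply div_le_div_of_nonneg_right _ (by positivity)
    have : (s:ℝ) ≤ a0 := by exact_mod_cast hs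
    linarith
  -- upper bound for children of the root
  have hup : ∀ z : Fin (k + m), z ≠ Fin.castAdd m y → π z = Fin.castAdd m y →
      (sz π z : ℝ) / ((k + m : ℕ) : ℝ) ≤ a0 / k + (ε + 1 / ((k:ℝ) - 1)) := by
    intro z hz hpz
    have hszn : sz π z ≤ k + m := by have := sz_lt h.par hz; omega
    have h1 := (Mx_compare (s := sz π z) hn hszn).1
    have h2 : Mx (sz π z) (((k + m : ℕ) : ℝ) - 1) ≤ Mx a0 ((k:ℝ) - 1) + ε := by
      rcases Nat.lt_or_ge z.val k with hzk | hzk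
      · set x' : Fin k := ⟨z.val, hzk⟩ with hx'
        have hzx : z = Fin.castAdd m x' := rfl
        have h3 : π0 x' = y := by
          have h4 := h.old x'
          rw [← hzx, hpz] at h4
          exact (Fin.castAdd_injective _ _ h4).symm
        have h5 : x' ≠ y := by
          intro h6
          apply hz
          rw [hzx, h6]
        have h7 := hb1 x' ⟨h5, h3⟩
        have h8 := hpmono _ (hsm x' h5 h3)
        have h9 := (abs_le.1 h7).2
        rw [← hzx] at h9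
        linarith
      · have h3 := hb2 z ⟨hzk, hpz⟩
        have h4 : 0 ≤ Mx a0 ((k:ℝ) - 1) := by
          unfold Mx
          apply div_nonneg _ (by positivity)
          have : 1 ≤ a0 := by rw [← hxa]; exact sz_pos h0 x
          have : (1:ℝ) ≤ a0 := by exact_mod_cast this
          linarith
        linarith
    linarith
  rw [abs_le]
  constructor
  · -- lower bound
    have hx' : Fin.castAdd m x ≠ Fin.castAdd m y := fun he => hx (Fin.castAdd_injective _ _ he)
    have h1 := le_Mst_par h.par hx'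
    rw [Fintype.card_fin] at h1
    have hszn : sz π (Fin.castAdd m x) ≤ k + m := by have := sz_lt h.par hx'; omega
    have h2 : (sz π (Fin.castAdd m x) : ℝ) / ((k + m : ℕ) : ℝ) ≤ a0 / k + (ε + 1 / ((k:ℝ) - 1)) := by
      apply hup _ hx'
      rw [h.old, hpx]
    have h3 : a0 / k - (ε + 1 / ((k:ℝ) - 1)) ≤ (sz π (Fin.castAdd m x) : ℝ) / ((k + m : ℕ) : ℝ) := by
      have h4 := (Mx_compare (s := sz π (Fin.castAdd m x)) hn hszn).2
      have h5 := (abs_le.1 (hb1 x ⟨hx, hpx⟩)).1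
      rw [hxa] at h5
      linarith
    have h4 : (a0:ℝ) / k ≤ 1 / 2 := by
      rw [div_le_div_iff₀ hk0 (by norm_num)]
      have : 2 * (a0:ℝ) ≤ k := by exact_mod_cast hhalf
      linarith
    have h5 : a0 / k - (ε + 1 / ((k:ℝ) - 1)) ≤ (Mst (Gp π) : ℝ) / ((k + m : ℕ) : ℝ) := by
      rw [le_div_iff₀ hn0]
      rcases min_le_iff.1 h1 with h6 | h6
      · have h7 : (sz π (Fin.castAdd m x) : ℝ) ≤ Mst (Gp π) := by exact_mod_cast h6
        rw [le_div_iff₀ hn0] at h3
        linarith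
      · have h7 : ((k + m - sz π (Fin.castAdd m x) : ℕ) : ℝ) ≤ Mst (Gp π) := by exact_mod_cast h6
        rw [Nat.cast_sub hszn] at h7
        rw [div_le_iff₀ hn0] at h2
        have h8 : (a0 / k - (ε + 1 / ((k:ℝ) - 1))) * ((k + m : ℕ) : ℝ) ≤
            (1 - (a0 / k + (ε + 1 / ((k:ℝ) - 1)))) * ((k + m : ℕ) : ℝ) := by
          apply mul_le_mul_of_nonneg_right _ hn0.le
          linarith
        linarith
    linarith
  · -- upper bound
    have h1 : Mst (Gp π) ≤ ⌊(a0 / k + (ε + 1 / ((k:ℝ) - 1))) * ((k + m : ℕ) : ℝ)⌋₊ := by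
      apply Mst_le_par h.par
      intro z hz hpz
      apply Nat.le_floor
      have := hup z hz hpz
      rwa [div_le_iff₀ hn0] at this
    have h2 : (Mst (Gp π) : ℝ) ≤ (a0 / k + (ε + 1 / ((k:ℝ) - 1))) * ((k + m : ℕ) : ℝ) := by
      refine le_trans (by exact_mod_cast h1) (Nat.floor_le ?_)
      have : 0 ≤ 1 / ((k:ℝ) - 1) := by positivity
      positivity
    have h3 : (Mst (Gp π) : ℝ) / ((k + m : ℕ) : ℝ) ≤ a0 / k + (ε + 1 / ((k:ℝ) - 1)) := by
      rw [div_le_iff₀ hn0]; exact h2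
    linarith

end

/-- concentration of the statistic -/
theorem conc {k : ℕ} (hk : 2 ≤ k) {T : SimpleGraph (Fin k)} (hT : T.IsTree) {ε : ℝ} (hε : 0 < ε)
    (m : ℕ) : 1 - 2 / (k * ε ^ 2) ≤ paE T m (fun G =>
      if |(Mst G : ℝ) / ((k + m : ℕ) : ℝ) - Mst T / k| ≤ ε + 1 / ((k:ℝ) - 1) then 1 else 0) := by
  obtain ⟨y, x, π, h1, h2, h3, h4, h5, h6, h7⟩ := structure_lemma hT (by
    rw [Fintype.card_fin]; exact hk)
  rw [Fintype.card_fin] at h7
  rw [← h2, paE_eq]
  have e1 : pE π m (fun π' => 1 + (-1) * (if Bad π y ε m π' then 1 else 0)) ≤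
      pE π m (fun π' => if |(Mst (Gp π') : ℝ) / ((k + m : ℕ) : ℝ) - Mst (Gp π) / k| ≤
        ε + 1 / ((k:ℝ) - 1) then 1 else 0) := by
    apply pE_mono hk h1
    intro π' hπ'
    by_cases hb : Bad π y ε m π'
    · rw [if_pos hb]
      split_ifs <;> norm_num
    · rw [if_neg hb]
      rw [h2]
      rw [if_pos (Mst_good hk hπ' h1 hb hε h3 h4 h5 h6 h7)]
      norm_num
  refine le_trans ?_ e1
  have e2 : ∀ (m : ℕ) (F : (Fin (k + m) → Fin (k + m)) → ℝ),
      pE π m (fun π' => 1 + (-1) * F π') = 1 + (-1) * pE π m F := by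
    intro m
    induction m with
    | zero => intro F; rfl
    | succ m ih =>
      intro F
      rw [pE, pE, ← ih]
      have key : ∀ π' : Fin (k + m) → Fin (k + m), Inv π y m π' →
          E1 π' (fun i => 1 + (-1) * F (ext π' i)) = 1 + (-1) * E1 π' (fun i => F (ext π' i)) := by
        intro π' hπ'
        refine (E1_add (fun _ => 1) (fun i => (-1) * F (ext π' i))).trans ?_
        exact congrArg₂ (· + ·) (E1_const hπ'.par (by omega) 1)
          (E1_mul (-1) (fun i => F (ext π' i)))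
      apply le_antisymm
      · exact pE_mono hk h1 _ _ _ fun π' hπ' => le_of_eq (key π' hπ')
      · exact pE_mono hk h1 _ _ _ fun π' hπ' => le_of_eq (key π' hπ').symm
  rw [e2]
  have := prob_bad hk h1 hε m
  linarith

end Pool.Agent.Q287.RS
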